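import Pool.Agent.Q171.Hol.Refl

/-! # The truncated ball and its coincidence set -/

set_option autoImplicit false

open MeasureTheory Set Filter Topology Metric
open scoped ENNReal RealInnerProductSpace

namespace Pool.Agent.Q171.Hol

/-- the truncated ball -/
def Ud : Set E3 := {x | ‖x‖ < 101 / 100 ∧ x 0 < 1}

/-- its closure -/
def Kout : Set E3 := {x | ‖x‖ ≤ 101 / 100 ∧ x 0 ≤ 1}

lemma inner3 (x n : E3) : ⟪x, n⟫ = x 0 * n 0 + x 1 * n 1 + x 2 * n 2 := by
  rw [PiLp.inner_apply, Fin.sum_univ_three]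
  simp [mul_comm]

lemma norm3 (x : E3) : ‖x‖ ^ 2 = x 0 ^ 2 + x 1 ^ 2 + x 2 ^ 2 := by
  rw [EuclideanSpace.real_norm_sq_eq, Fin.sum_univ_three]

lemma abs_coord_le (x : E3) : |x 0| ≤ ‖x‖ := by
  apply abs_le_of_sq_le_sq _ (norm_nonneg _) |> fun h => h
  rw [norm3]
  nlinarith [sq_nonneg (x 1), sq_nonneg (x 2)]

/-- the reflection property of the truncated ball -/
lemma Ud_refl {n : E3} (hn : ‖n‖ = 1) {lam : ℝ} (hl : 1 / 5 ≤ lam) {x : E3} (hx : x ∈ Ud)
    (hxl : lam < ⟪x, n⟫) : sref n lam x ∈ Ud := by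
  obtain ⟨hx1, hx2⟩ := hx
  set q := ⟪x, n⟫ - lam with hq
  have hq0 : 0 < q := by linarith
  have hN : ‖sref n lam x‖ ^ 2 = ‖x‖ ^ 2 - 4 * lam * q := by
    unfold sref
    rw [norm_sub_sq_real, inner_smul_right, norm_smul, hn, mul_one, Real.norm_eq_abs, sq_abs]
    have : (⟪x, n⟫ : ℝ) = q + lam := by rw [hq]; ring
    rw [← hq, this]
    ring
  have hx0 := norm_nonneg x
  have hNlt : ‖sref n lam x‖ ^ 2 < (101 / 100) ^ 2 - 4 * lam * q := by
    rw [hN]; nlinarith
  have hlq : 0 < lam * q := by positivity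
  refine ⟨?_, ?_⟩
  · have h1 : ‖sref n lam x‖ ^ 2 < (101 / 100) ^ 2 := by nlinarith
    exact lt_of_pow_lt_pow_left₀ 2 (by norm_num) h1
  · by_contra hcon
    push Not at hcon
    have e0 : (sref n lam x) 0 = x 0 - 2 * q * n 0 := by
      unfold sref
      simp [hq]
    rw [e0] at hcon
    set a := -(n 0) with ha
    have hn0 : n 0 = -a := by rw [ha]; ring
    rw [hn0] at hcon
    have ha0 : 0 < a := by
      by_contra h
      push Not at h
      nlinarith
    have hnn := norm3 n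
    rw [hn, hn0] at hnn
    have ha1 : a ≤ 1 := by nlinarith [sq_nonneg (n 1), sq_nonneg (n 2)]
    -- `4 lam q ≤ 0.0201`
    have h2 : (1:ℝ) ≤ ‖sref n lam x‖ ^ 2 := by
      rw [norm3, e0, hn0]
      nlinarith [sq_nonneg ((sref n lam x) 1), sq_nonneg ((sref n lam x) 2)]
    have h3 : 4 * lam * q ≤ 201 / 10000 := by nlinarith
    have h4 : q ≤ 201 / 8000 := by nlinarith
    have h5 : 1 - 2 * a * q ≤ x 0 := by nlinarith
    have h6 : 1 / 2 ≤ x 0 := by nlinarith [mul_le_mul ha1 h4 hq0.le (by norm_num : (0:ℝ) ≤ 1)]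
    -- the tangential part
    set w := x 1 * n 1 + x 2 * n 2 with hw
    have hp : w = lam + q + a * x 0 := by
      have := inner3 x n
      rw [hn0] at this
      rw [hw, hq, this]
      ring
    have hcs : w ^ 2 ≤ x 1 ^ 2 + x 2 ^ 2 := by
      have h7 : w ^ 2 ≤ (x 1 ^ 2 + x 2 ^ 2) * (n 1 ^ 2 + n 2 ^ 2) := by
        rw [hw]; nlinarith [sq_nonneg (x 1 * n 2 - x 2 * n 1)]
      have h8 : n 1 ^ 2 + n 2 ^ 2 ≤ 1 := by nlinarith [sq_nonneg a]
      nlinarith [mul_le_mul_of_nonneg_left h8 (by positivity : (0:ℝ) ≤ x 1 ^ 2 + x 2 ^ 2)]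
    have hxx := norm3 x
    have h9 : x 1 ^ 2 + x 2 ^ 2 < (101 / 100) ^ 2 - x 0 ^ 2 := by nlinarith
    have h10 : (1 - 2 * a * q) ^ 2 ≤ x 0 ^ 2 := by
      apply pow_le_pow_left₀ _ h5
      nlinarith [mul_le_mul ha1 h4 hq0.le (by norm_num : (0:ℝ) ≤ 1)]
    have h11 : w ^ 2 < 201 / 10000 + 4 * (a * q) := by nlinarith [sq_nonneg (a * q)]
    have h12 : lam + a / 2 < w := by nlinarith
    have h13 : (lam + a / 2) ^ 2 < w ^ 2 := by
      apply pow_lt_pow_left₀ h12 (by positivity) two_ne_zero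
    -- `lam * (4 a q) ≤ a * 0.0201`
    have h14 : 4 * (a * q) ≤ lam * a := by
      have h15 : lam * (4 * (a * q)) ≤ a * (201 / 10000) := by nlinarith
      have h16 : a * (201 / 10000) ≤ lam * (lam * a) := by nlinarith [mul_le_mul hl hl (by norm_num) (by linarith : (0:ℝ) ≤ lam)]
      have hlp : 0 < lam := by linarith
      exact le_of_mul_le_mul_left (h15.trans h16) hlp
    nlinarith [mul_le_mul hl hl (by norm_num) (by linarith : (0:ℝ) ≤ lam)]

lemma Ud_open : IsOpen Ud := by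
  have h1 : IsOpen {x : E3 | ‖x‖ < 101 / 100} := isOpen_lt (by fun_prop) continuous_const
  have h2 : IsOpen {x : E3 | x 0 < 1} := isOpen_lt (by fun_prop) continuous_const
  exact h1.inter h2

lemma Ud_sub : Ud ⊆ ball (0 : E3) (101 / 100) := fun x hx => by simpa using hx.1

lemma ball_sub_Ud : ball (0 : E3) 1 ⊆ Ud := by
  intro x hx
  rw [mem_ball_zero_iff] at hx
  exact ⟨by linarith, by linarith [abs_coord_le x, le_abs_self (x 0)]⟩

lemma Kout_sb_aux {x : E3} (hx : x ∈ Kout) {τ : ℝ} (h0 : 0 ≤ τ) (h1 : τ < 1) : τ • x ∈ Ud := by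
  obtain ⟨hx1, hx2⟩ := hx
  have hn := norm_nonneg x
  refine ⟨?_, ?_⟩
  · rw [norm_smul, Real.norm_of_nonneg h0]
    nlinarith
  · show (τ • x) 0 < 1
    have : (τ • x) 0 = τ * x 0 := by simp
    rw [this]
    rcases le_total (x 0) 0 with h | h
    · nlinarith
    · nlinarith

lemma Kout_closed : IsClosed Kout := by
  have h1 : IsClosed {x : E3 | ‖x‖ ≤ 101 / 100} := isClosed_le (by fun_prop) continuous_const
  have h2 : IsClosed {x : E3 | x 0 ≤ 1} := isClosed_le (by fun_prop) continuous_const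
  exact h1.inter h2

lemma Ud_sub_Kout : Ud ⊆ Kout := fun _ hx => ⟨hx.1.le, hx.2.le⟩

lemma Kout_int : interior Kout = Ud := by
  apply Subset.antisymm
  · intro x hx
    -- push outwards
    have hc : Tendsto (fun t : ℝ => t • x) (𝓝[>] 1) (𝓝 ((1:ℝ) • x)) :=
      (Continuous.tendsto (by fun_prop) _).mono_left nhdsWithin_le_nhds
    rw [one_smul] at hc
    obtain ⟨t, ht1, ht2⟩ := ((hc.eventually_mem (isOpen_interior.mem_nhds hx)).and
      self_mem_nhdsWithin).exists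
    have ht : 1 < t := ht2
    have h1 : t • x ∈ Kout := interior_subset ht1
    have h2 := Kout_sb_aux h1 (τ := t⁻¹) (by positivity) (inv_lt_one_of_one_lt₀ ht)
    rwa [smul_smul, inv_mul_cancel₀ (by positivity), one_smul] at h2
  · exact interior_maximal Ud_sub_Kout Ud_open

lemma Kout_sb : SB Kout where
  comp := by
    apply isCompact_of_isClosed_isBounded Kout_closed
    refine (isBounded_closedBall (x := (0 : E3)) (r := 101 / 100)).subset fun x hx => ?_
    simpa using hx.1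
  ne := ⟨0, by
    refine ⟨?_, ?_⟩
    · rw [norm_zero]; norm_num
    · simp⟩
  star := fun x hx τ h0 h1 => by rw [Kout_int]; exact Kout_sb_aux hx h0 h1

/-- the indicator of a ball -/
noncomputable def Bi (r : ℝ) : E3 → ℝ := (ball (0 : E3) r).indicator fun _ => 1

lemma Bi_nice (r : ℝ) : Nice 1 r (Bi r) := by
  refine ⟨measurable_const.indicator measurableSet_ball, fun x => ?_, fun x hx => ?_⟩
  · unfold Bi
    by_cases h : x ∈ ball (0 : E3) r
    · rw [indicator_of_mem h]; simp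
    · rw [indicator_of_notMem h]; simp
  · unfold Bi
    rw [indicator_of_notMem (by simpa using hx)]

lemma Vp_Bi {r : ℝ} (hr : 0 ≤ r) (x : E3) : Vp (Bi r) x = Sg * PR r ‖x‖ := by
  have h := pot_r x 0 hr
  rw [sub_zero] at h
  rw [← h, ← integral_indicator measurableSet_ball]
  unfold Vp
  congr 1
  ext y
  unfold Bi
  by_cases hy : y ∈ ball (0 : E3) r
  · rw [indicator_of_mem hy, indicator_of_mem hy, one_mul]
  · rw [indicator_of_notMem hy, indicator_of_notMem hy, zero_mul]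

lemma shell_le {t : ℝ} (ht : 0 ≤ t) : PR 1 t - PR (1 / 2) t ≤ 3 / 8 := by
  rcases le_total t (1 / 2) with h | h
  · rw [PR_in ht (by linarith), PR_in ht h]; nlinarith
  · have ht0 : 0 < t := by linarith
    rcases le_total t 1 with h1 | h1
    · rw [PR_in ht h1, PR_out (by norm_num) h]
      have : 1 / 8 ≤ t ^ 2 / 6 + (1 / 2) ^ 3 / 3 * t⁻¹ := by
        have e : t ^ 2 / 6 + (1 / 2) ^ 3 / 3 * t⁻¹ = (4 * t ^ 3 + 1) / (24 * t) := by
          field_simp; ring
        rw [e, le_div_iff₀ (by positivity)]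
        nlinarith [mul_nonneg (sq_nonneg (2 * t - 1)) (by linarith : (0:ℝ) ≤ t + 1)]
      linarith
    · rw [PR_out (by norm_num) h1, PR_out (by norm_num) h]
      have : t⁻¹ ≤ 1 := inv_le_one_of_one_le₀ h1
      linarith

lemma shell_eq {t : ℝ} (ht : 0 ≤ t) (h : t ≤ 1 / 2) : PR 1 t - PR (1 / 2) t = 3 / 8 := by
  rw [PR_in ht (by linarith), PR_in ht h]; ring

/-- the level -/
noncomputable def cc : ℝ := Sg * (3 / 8)

variable {g : E3 → ℝ}

lemma inner_ball (hg : Adm Ud g) (hk : ∀ᵐ x, x ∈ Ud → Vp g x < cc → g x = 1)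
    (hc : ∀ x, Vp g x ≤ cc) {x : E3} (hx : ‖x‖ ≤ 1 / 2) : Vp g x = cc := by
  apply le_antisymm (hc x)
  have hn1 := Bi_nice 1
  have hn2 := (Bi_nice (1 / 2)).mono le_rfl (show (1 / 2 : ℝ) ≤ 1 by norm_num)
  have hh := hn1.sub hn2
  have hgn := hg.nice Ud_sub
  have hfn := (hh.mono le_rfl (show (1:ℝ) ≤ 101 / 100 by norm_num)).sub hgn
  have hS := Sg_pos
  have hVh : ∀ y, Vp (fun z => Bi 1 z - Bi (1 / 2) z) y = Sg * (PR 1 ‖y‖ - PR (1 / 2) ‖y‖) := by
    intro y
    rw [Vp_sub hn1 hn2, Vp_Bi zero_le_one, Vp_Bi (by norm_num)]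
    ring
  have hV : ∀ y, Vp (fun z => (Bi 1 z - Bi (1 / 2) z) - g z) y =
      Sg * (PR 1 ‖y‖ - PR (1 / 2) ‖y‖) - Vp g y := by
    intro y
    rw [Vp_sub (f := fun z => Bi 1 z - Bi (1 / 2) z) hh hgn, hVh]
  have key := hfn.mp (by norm_num) (a := 0) le_rfl isOpen_univ (by simp) (by
    filter_upwards [hk] with y hy _ hpos
    rw [hV, add_zero] at hpos
    have h1 : Vp g y < cc := by
      have h2 := shell_le (norm_nonneg y)
      unfold cc
      nlinarith
    by_cases hyU : y ∈ Ud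
    · rw [hy hyU h1]
      unfold Bi
      have a1 : (ball (0 : E3) 1).indicator (fun _ => (1:ℝ)) y ≤ 1 := indicator_le_self' (by simp) y |>.trans le_rfl
      have a2 : 0 ≤ (ball (0 : E3) (1 / 2)).indicator (fun _ => (1:ℝ)) y :=
        indicator_nonneg (fun _ _ => zero_le_one) y
      linarith
    · have hy1 : y ∉ ball (0 : E3) 1 := fun h => hyU (ball_sub_Ud h)
      have hy2 : y ∉ ball (0 : E3) (1 / 2) := fun h => hy1 (ball_subset_ball (by norm_num) h)
      unfold Bi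
      rw [hg.supp y hyU, indicator_of_notMem hy1, indicator_of_notMem hy2]
      simp) x (mem_univ x)
  rw [hV, shell_eq (norm_nonneg x) hx, add_zero] at key
  unfold cc
  linarith

lemma outer (hg : Adm Ud g) {x : E3} (hx : 1 ≤ ‖x‖) : Vp g x < cc := by
  have h1 := (hg.nice Ud_sub).Vp_abs_le (by norm_num) x
  have hS := Sg_pos
  have h2 : PR (101 / 100) ‖x‖ < 3 / 8 := by
    rcases le_total ‖x‖ (101 / 100) with h | h
    · rw [PR_in (norm_nonneg _) h]
      nlinarith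
    · rw [PR_out (by norm_num) h]
      have : ‖x‖⁻¹ ≤ 1 := inv_le_one_of_one_le₀ hx
      nlinarith
  have h3 := le_abs_self (Vp g x)
  unfold cc
  nlinarith

/-- the coincidence set -/
def Kc (g : E3 → ℝ) : Set E3 := {x | Vp g x = cc}

lemma Kc_step (hg : Adm Ud g) (hk : ∀ᵐ x, x ∈ Ud → Vp g x < cc → g x = 1)
    (hc : ∀ x, Vp g x ≤ cc) {x n : E3} (hx : x ∈ Kc g) (hn : ‖n‖ = 1) {s : ℝ} (hs : 0 ≤ s)
    (hs2 : s ≤ 2 * (⟪x, n⟫ - 1 / 5)) : x - s • n ∈ Kc g := by
  rcases hs.eq_or_lt with h0 | h0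
  · rw [← h0]; simpa using hx
  · have hl : 1 / 5 ≤ ⟪x, n⟫ - s / 2 := by linarith
    have h1 := moving (by norm_num) Ud_sub hg hk hc hn (lam := ⟪x, n⟫ - s / 2) (by linarith)
      (fun y hy hyl => Ud_refl hn hl hy hyl) (x := x) (by linarith)
    have e : sref n (⟪x, n⟫ - s / 2) x = x - s • n := by
      unfold sref
      congr 2
      ring
    rw [e] at h1
    have hx' : Vp g x = cc := hx
    exact le_antisymm (hc _) (by rw [← hx']; exact h1)

lemma Kc_sb (hg : Adm Ud g) (hk : ∀ᵐ x, x ∈ Ud → Vp g x < cc → g x = 1)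
    (hc : ∀ x, Vp g x ≤ cc) : SB (Kc g) := by
  have hcont := (hg.nice Ud_sub).Vp_cont
  have hcl : IsClosed (Kc g) := isClosed_eq hcont continuous_const
  have hbd : Kc g ⊆ ball (0 : E3) 1 := by
    intro x hx
    rw [mem_ball_zero_iff]
    by_contra h
    push Not at h
    have := outer hg h
    have hx' : Vp g x = cc := hx
    linarith
  have hball : ball (0 : E3) (1 / 2) ⊆ Kc g := fun x hx => by
    rw [mem_ball_zero_iff] at hx
    exact inner_ball hg hk hc hx.le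
  refine ⟨isCompact_of_isClosed_isBounded hcl (isBounded_ball.subset hbd),
    ⟨0, hball (by simp)⟩, fun x hx τ h0 h1 => ?_⟩
  rcases lt_or_ge ‖x‖ (1 / 2) with hx2 | hx2
  · apply interior_maximal hball isOpen_ball
    rw [mem_ball_zero_iff, norm_smul, Real.norm_of_nonneg h0]
    nlinarith [norm_nonneg x]
  · -- the open set
    set G : E3 → ℝ := fun y => 2 * ⟪x, x - y⟫ - 2 / 5 * ‖x - y‖ - ‖x - y‖ ^ 2 with hG
    have hGc : Continuous G := by rw [hG]; fun_prop
    have hGo : IsOpen {y | 0 < G y} := isOpen_lt continuous_const hGc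
    have hsub : {y | 0 < G y} ⊆ Kc g := by
      intro y hy
      have hy' : 0 < 2 * ⟪x, x - y⟫ - 2 / 5 * ‖x - y‖ - ‖x - y‖ ^ 2 := hy
      have hne : x - y ≠ 0 := by
        intro h
        rw [h] at hy'
        simp at hy'
      have hs : 0 < ‖x - y‖ := norm_pos_iff.2 hne
      have h3 := Kc_step hg hk hc hx (n := ‖x - y‖⁻¹ • (x - y)) (by
        rw [norm_smul, norm_inv, norm_norm, inv_mul_cancel₀ hs.ne']) hs.le (by
        rw [inner_smul_right]
        have h4 : ‖x - y‖ * ‖x - y‖ ≤ ‖x - y‖ * (2 * (‖x - y‖⁻¹ * ⟪x, x - y⟫ - 1 / 5)) := by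
          have e : ‖x - y‖ * (2 * (‖x - y‖⁻¹ * ⟪x, x - y⟫ - 1 / 5)) =
              2 * ⟪x, x - y⟫ - 2 / 5 * ‖x - y‖ := by
            field_simp
          rw [e]
          nlinarith
        exact le_of_mul_le_mul_left h4 hs)
      rw [smul_smul, mul_inv_cancel₀ hs.ne', one_smul, sub_sub_cancel] at h3
      exact h3
    apply interior_maximal hsub hGo
    show 0 < 2 * ⟪x, x - τ • x⟫ - 2 / 5 * ‖x - τ • x‖ - ‖x - τ • x‖ ^ 2
    have e1 : x - τ • x = (1 - τ) • x := by rw [sub_smul, one_smul]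
    rw [e1, inner_smul_right, real_inner_self_eq_norm_sq, norm_smul,
      Real.norm_of_nonneg (by linarith : (0:ℝ) ≤ 1 - τ)]
    have e2 : 2 * ((1 - τ) * ‖x‖ ^ 2) - 2 / 5 * ((1 - τ) * ‖x‖) - ((1 - τ) * ‖x‖) ^ 2 =
        (1 - τ) * ‖x‖ * ((1 + τ) * ‖x‖ - 2 / 5) := by ring
    rw [e2]
    have h5 : 0 < (1 - τ) * ‖x‖ := mul_pos (by linarith) (by linarith)
    have h6 : 0 < (1 + τ) * ‖x‖ - 2 / 5 := by nlinarith
    exact mul_pos h5 h6

end Pool.Agent.Q171.Hol
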