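import Pool.Agent.Q171.Hol.Dom

/-! # The density of the solution and the counterexample -/

set_option autoImplicit false

open MeasureTheory Set Filter Topology Metric
open scoped ENNReal RealInnerProductSpace

namespace Pool.Agent.Q171.Hol

variable {g : E3 → ℝ}

lemma zero_int (hg : Adm Ud g) : ∀ᵐ x, x ∈ interior (Kc g) → g x = 0 := by
  have h : volume {x | x ∈ interior (Kc g) ∧ g x ≠ 0} = 0 := by
    apply measure_null_of_locally_null
    rintro x ⟨hx, -⟩
    obtain ⟨r, hr, hb⟩ := Metric.isOpen_iff.1 isOpen_interior x hx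
    refine ⟨ball x r ∩ {x | x ∈ interior (Kc g) ∧ g x ≠ 0},
      inter_mem (mem_nhdsWithin_of_mem_nhds (ball_mem_nhds x hr)) self_mem_nhdsWithin, ?_⟩
    have hx1 : x ∈ Kc g := interior_subset hx
    have hx' : Vp g x = cc := hx1
    have h1 := (hg.nice Ud_sub).zero_of_const (c := x) hr.le hg.nonneg (fun y hy => by
      have hy1 : y ∈ Kc g := interior_subset (hb hy)
      have hy' : Vp g y = cc := hy1
      rw [hy', hx'])
    rw [ae_iff] at h1
    refine measure_mono_null ?_ h1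
    rintro y ⟨hy1, -, hy2⟩
    exact fun h => hy2 (h hy1)
  rw [ae_iff]
  refine measure_mono_null ?_ h
  intro x hx
  have hx' : ¬ (x ∈ interior (Kc g) → g x = 0) := hx
  rw [not_forall] at hx'
  obtain ⟨h1, h2⟩ := hx'
  exact ⟨h1, h2⟩

lemma g_eq (hg : Adm Ud g) (hk : ∀ᵐ x, x ∈ Ud → Vp g x < cc → g x = 1)
    (hc : ∀ x, Vp g x ≤ cc) :
    ∀ᵐ x, g x = (Ud \ Kc g).indicator (fun _ => (1:ℝ)) x := by
  have hn : ∀ᵐ x : E3, x ∉ Kc g \ interior (Kc g) := by
    exact measure_eq_zero_iff_ae_notMem.1 (Kc_sb hg hk hc).null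
  filter_upwards [zero_int hg, hk, hn] with x h1 h2 h3
  by_cases hK : x ∈ Kc g
  · have h4 : x ∈ interior (Kc g) := by
      by_contra h
      exact h3 ⟨hK, h⟩
    rw [h1 h4, indicator_of_notMem (fun h => h.2 hK)]
  · by_cases hU : x ∈ Ud
    · rw [indicator_of_mem (show x ∈ Ud \ Kc g from ⟨hU, hK⟩)]
      apply h2 hU
      exact lt_of_le_of_ne (hc x) hK
    · rw [hg.supp x hU, indicator_of_notMem (fun h => hU h.1)]

lemma pot_eq (hg : Adm Ud g) (hk : ∀ᵐ x, x ∈ Ud → Vp g x < cc → g x = 1)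
    (hc : ∀ x, Vp g x ≤ cc) (P : E3) :
    ∫ y in Ud \ Kc g, (dist P y)⁻¹ = Vp g P := by
  have hm : MeasurableSet (Ud \ Kc g) :=
    Ud_open.measurableSet.diff (Kc_sb hg hk hc).comp.isClosed.measurableSet
  rw [← integral_indicator hm]
  unfold Vp
  apply integral_congr_ae
  filter_upwards [g_eq hg hk hc] with y hy
  rw [hy]
  by_cases h : y ∈ Ud \ Kc g
  · rw [indicator_of_mem h, indicator_of_mem h, one_mul, dist_eq_norm]
  · rw [indicator_of_notMem h, indicator_of_notMem h, zero_mul]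

/-- points of the flat part of the boundary -/
lemma flat {x : E3} (h0 : x 0 = 1) (hn : ‖x‖ ≤ 101 / 100) : x ∈ frontier Kout := by
  rw [Kout_sb.frontier_eq, Kout_int]
  exact ⟨⟨hn, h0.le⟩, fun h => by have := h.2; linarith⟩

/-- the flat part is not contained in an affine image of a sphere -/
lemma not_sphere (f : E3 ≃ᵃ[ℝ] E3) : frontier Kout ≠ f '' sphere (0 : E3) 1 := by
  intro h
  set p : E3 := !₂[1, 1 / 20, 0] with hp
  set q : E3 := !₂[1, -(1 / 20), 0] with hq
  set m : E3 := !₂[1, 0, 0] with hm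
  have hpm : p ∈ frontier Kout := by
    apply flat (by simp [hp])
    have h1 : ‖p‖ ^ 2 = 401 / 400 := by rw [norm3]; simp [hp]; norm_num
    nlinarith [norm_nonneg p]
  have hqm : q ∈ frontier Kout := by
    apply flat (by simp [hq])
    have h1 : ‖q‖ ^ 2 = 401 / 400 := by rw [norm3]; simp [hq]; norm_num
    nlinarith [norm_nonneg q]
  have hmm : m ∈ frontier Kout := by
    apply flat (by simp [hm])
    have h1 : ‖m‖ ^ 2 = 1 := by rw [norm3]; simp [hm]
    nlinarith [norm_nonneg m]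
  rw [h] at hpm hqm hmm
  obtain ⟨a, ha, hfa⟩ := hpm
  obtain ⟨b, hb, hfb⟩ := hqm
  obtain ⟨e, he, hfe⟩ := hmm
  rw [mem_sphere_zero_iff_norm] at ha hb he
  have h1 : midpoint ℝ p q = m := by
    rw [midpoint_eq_smul_add]
    ext i
    fin_cases i <;> (simp [hp, hq, hm]; try norm_num)
  have h2 : f (midpoint ℝ a b) = f e := by
    rw [AffineEquiv.map_midpoint, hfa, hfb, h1, hfe]
  have h3 : midpoint ℝ a b = e := f.injective h2
  have h4 : ‖a + b‖ = 2 := by
    have h5 : (2:ℝ) • e = a + b := by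
      rw [← h3, midpoint_eq_smul_add, smul_smul]
      norm_num
    rw [← h5, norm_smul, he]
    norm_num
  have h6 := parallelogram_law_with_norm ℝ a b
  rw [h4, ha, hb] at h6
  have h7 : ‖a - b‖ = 0 := by
    have : ‖a - b‖ * ‖a - b‖ = 0 := by linarith
    exact mul_self_eq_zero.1 this
  have h8 : a = b := sub_eq_zero.1 (norm_eq_zero.1 h7)
  rw [h8, hfb] at hfa
  have h9 := congrArg (fun z : E3 => z 1) hfa
  simp [hp, hq] at h9
  norm_num at h9

/-- existence of the shell -/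
theorem shell : ∃ K : Set E3, SB K ∧ K ⊆ Ud ∧
    ∃ c : ℝ, ∀ P ∈ K, ∫ y in Ud \ K, (dist P y)⁻¹ = c := by
  have hcc : 0 ≤ cc := by unfold cc; have := Sg_pos; positivity
  obtain ⟨g, hg, hk, hc⟩ := exists_obst Ud_open.measurableSet Ud_sub (by norm_num) hcc
  refine ⟨Kc g, Kc_sb hg hk hc, fun x hx => ?_, cc, fun P hP => ?_⟩
  · apply ball_sub_Ud
    rw [mem_ball_zero_iff]
    by_contra h
    push Not at h
    have := outer hg h
    have hx' : Vp g x = cc := hx
    linarith
  · rw [pot_eq hg hk hc]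
    exact hP

end Pool.Agent.Q171.Hol
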