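import Pool.Agent.Y767.PB.Sph

/-! # The Newton kernel in `ℝ³` -/

set_option autoImplicit false

open MeasureTheory Set Filter Topology Metric
open scoped ENNReal

namespace Pool.Agent.Q171.Hol

open Pool.Agent.Y767.PB

/-- three-space -/
abbrev E3 : Type := EuclideanSpace ℝ (Fin 3)

/-- the area of the unit sphere -/
noncomputable def Sg : ℝ := (SS 0).toReal

lemma Sg_pos : 0 < Sg := ENNReal.toReal_pos (SS_ne_zero 0) (SS_ne_top 0)

/-- the potential profile of a ball of radius `R`, without the constant -/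
noncomputable def PR (R t : ℝ) : ℝ := PP 0 t R

lemma PR_out {R t : ℝ} (hR : 0 ≤ R) (h : R ≤ t) : PR R t = R ^ 3 / 3 * t⁻¹ := by
  unfold PR
  rw [PP_out 0 hR h]
  norm_num
  ring

lemma PR_in {R t : ℝ} (ht : 0 ≤ t) (h : t ≤ R) : PR R t = R ^ 2 / 2 - t ^ 2 / 6 := by
  unfold PR
  rw [PP_in 0 ht h]
  norm_num
  ring

lemma PR_nonneg {R t : ℝ} (hR : 0 ≤ R) (ht : 0 ≤ t) : 0 ≤ PR R t := by
  rcases le_total R t with h | h
  · rw [PR_out hR h]; positivity
  · rw [PR_in ht h]; nlinarith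

/-- the defect of the mean value property -/
lemma PR_le {r t : ℝ} (hr : 0 ≤ r) (ht : 0 < t) : PR r t ≤ r ^ 3 / 3 * t⁻¹ := by
  rcases le_total r t with h | h
  · rw [PR_out hr h]
  · rw [PR_in ht.le h, ← div_eq_mul_inv, le_div_iff₀ ht]
    nlinarith [mul_nonneg (sq_nonneg (r - t)) (by linarith : 0 ≤ 2 * r + t)]

lemma PR_lt {r t : ℝ} (ht : 0 < t) (h : t < r) : PR r t < r ^ 3 / 3 * t⁻¹ := by
  rw [PR_in ht.le h.le, ← div_eq_mul_inv, lt_div_iff₀ ht]
  nlinarith [mul_pos (pow_pos (sub_pos.2 h) 2) (by linarith : 0 < 2 * r + t)]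

lemma pot_l (x : E3) {R : ℝ} (hR : 0 ≤ R) :
    ∫⁻ y in ball (0 : E3) R, ENNReal.ofReal (‖x - y‖⁻¹) = SS 0 * ENNReal.ofReal (PR R ‖x‖) := by
  have h := ball_pot' 0 x hR
  have e : ∀ y : E3, ‖x - y‖ ^ (2 - (((0 + 3 : ℕ) : ℕ) : ℝ)) = ‖x - y‖⁻¹ := by
    intro y
    rw [show (2 - (((0 + 3 : ℕ) : ℕ) : ℝ)) = (-1 : ℝ) by norm_num, Real.rpow_neg_one]
  rw [← setLIntegral_congr_fun measurableSet_ball (fun y _ => by
    show ENNReal.ofReal (‖x - y‖ ^ (2 - (((0 + 3 : ℕ) : ℕ) : ℝ))) = ENNReal.ofReal (‖x - y‖⁻¹)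
    rw [e y])]
  exact h

lemma ker_meas : Measurable (fun z : E3 => ‖z‖⁻¹) := by fun_prop

lemma pot_lc (x c : E3) {R : ℝ} (hR : 0 ≤ R) :
    ∫⁻ y in ball c R, ENNReal.ofReal (‖x - y‖⁻¹) = SS 0 * ENNReal.ofReal (PR R ‖x - c‖) := by
  rw [← pot_l (x - c) hR, ← lintegral_indicator measurableSet_ball,
    ← lintegral_indicator measurableSet_ball,
    ← lintegral_add_right_eq_self _ c]
  congr 1
  ext y
  by_cases h : y ∈ ball (0 : E3) R
  · rw [indicator_of_mem h, indicator_of_mem (by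
      simp only [mem_ball, dist_eq_norm] at h ⊢; simpa using h)]
    congr 3
    abel
  · rw [indicator_of_notMem h, indicator_of_notMem (by
      simp only [mem_ball, dist_eq_norm] at h ⊢; simpa using h)]

lemma ker_int (x c : E3) (R : ℝ) : IntegrableOn (fun y => ‖x - y‖⁻¹) (ball c R) := by
  rcases le_total 0 R with hR | hR
  · refine ⟨(ker_meas.comp (by fun_prop)).aestronglyMeasurable, ?_⟩
    rw [hasFiniteIntegral_iff_norm]
    have h := pot_lc x c hR
    have e : ∫⁻ y in ball c R, ENNReal.ofReal ‖(‖x - y‖⁻¹ : ℝ)‖ = SS 0 * ENNReal.ofReal (PR R ‖x - c‖) := by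
      rw [← h]
      congr 1
      ext y
      rw [Real.norm_of_nonneg (by positivity)]
    rw [e]
    exact ENNReal.mul_lt_top (SS_ne_top 0).lt_top ENNReal.ofReal_lt_top
  · rw [ball_eq_empty.2 hR]; exact integrableOn_empty

lemma pot_r (x c : E3) {R : ℝ} (hR : 0 ≤ R) :
    ∫ y in ball c R, ‖x - y‖⁻¹ = Sg * PR R ‖x - c‖ := by
  rw [integral_eq_lintegral_of_nonneg_ae (ae_of_all _ fun y => by positivity)
    (ker_int x c R).aestronglyMeasurable, pot_lc x c hR, ENNReal.toReal_mul,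
    ENNReal.toReal_ofReal (PR_nonneg hR (norm_nonneg _))]
  rfl

lemma vol_b (c : E3) {R : ℝ} (hR : 0 ≤ R) : volume.real (ball c R) = Sg * (R ^ 3 / 3) := by
  have h := vol_ball' 0 hR
  have e : volume (ball c R) = volume (ball (0 : E3) R) := Measure.addHaar_ball_center _ _ _
  rw [measureReal_def, e]
  have h' : volume (ball (0 : E3) R) = SS 0 * ENNReal.ofReal (R ^ 3 / 3) := by
    refine Eq.trans h ?_
    norm_num
  rw [h', ENNReal.toReal_mul, ENNReal.toReal_ofReal (by positivity)]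
  rfl

/-- the square of the kernel -/
lemma ker_sq_int (x c : E3) (R : ℝ) : IntegrableOn (fun y => (‖x - y‖⁻¹) ^ 2) (ball c R) := by
  -- enlarge the ball
  have hsub : ball c R ⊆ ball x (R + dist c x) := by
    intro y hy
    simp only [mem_ball] at hy ⊢
    linarith [dist_triangle y c x]
  refine IntegrableOn.mono_set ?_ hsub
  set ρ := R + dist c x
  refine ⟨((ker_meas.comp (by fun_prop)).pow_const 2).aestronglyMeasurable, ?_⟩
  rw [hasFiniteIntegral_iff_norm]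
  have e1 : ∫⁻ y in ball x ρ, ENNReal.ofReal ‖((‖x - y‖⁻¹) ^ 2 : ℝ)‖ =
      ∫⁻ y : E3, (fun q : ℝ => ENNReal.ofReal ((q⁻¹) ^ 2) * (Iio ρ).indicator 1 q) ‖y‖ := by
    rw [← lintegral_indicator measurableSet_ball, ← lintegral_add_right_eq_self _ x]
    congr 1
    ext y
    by_cases h : y ∈ ball (0 : E3) ρ
    · have h2 : ‖y‖ < ρ := by simpa using h
      rw [indicator_of_mem (by simpa using h)]
      simp only
      rw [indicator_of_mem (by exact h2 : ‖y‖ ∈ Iio ρ), Real.norm_of_nonneg (by positivity)]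
      simp
    · have h2 : ¬ ‖y‖ < ρ := by simpa using h
      rw [indicator_of_notMem (by simpa using h)]
      simp only
      rw [indicator_of_notMem (by exact h2 : ‖y‖ ∉ Iio ρ)]
      simp
  have hw : Measurable (fun q : ℝ => ENNReal.ofReal ((q⁻¹) ^ 2) * (Iio ρ).indicator 1 q) :=
    (by fun_prop : Measurable (fun q : ℝ => ENNReal.ofReal ((q⁻¹) ^ 2))).mul (ind_meas ρ)
  have h3 := vol_w 0 hw
  have h4 : ∫⁻ y : E3, (fun q : ℝ => ENNReal.ofReal ((q⁻¹) ^ 2) * (Iio ρ).indicator 1 q) ‖y‖ =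
      SS 0 * ∫⁻ q in Ioi (0:ℝ), ENNReal.ofReal (q ^ (0 + 2)) *
        (ENNReal.ofReal ((q⁻¹) ^ 2) * (Iio ρ).indicator 1 q) := h3
  rw [e1, h4]
  apply ENNReal.mul_lt_top (SS_ne_top 0).lt_top
  calc ∫⁻ q in Ioi (0:ℝ), ENNReal.ofReal (q ^ (0 + 2)) *
        (ENNReal.ofReal ((q⁻¹) ^ 2) * (Iio ρ).indicator 1 q)
      ≤ ∫⁻ q in Ioi (0:ℝ), (Ioo 0 ρ).indicator 1 q := by
        apply setLIntegral_mono' measurableSet_Ioi
        intro q hq
        have hq' : 0 < q := hq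
        by_cases h : q < ρ
        · rw [indicator_of_mem (show q ∈ Iio ρ from h), indicator_of_mem (show q ∈ Ioo 0 ρ from ⟨hq', h⟩),
            Pi.one_apply, mul_one, ← ENNReal.ofReal_mul (by positivity)]
          apply le_of_eq
          rw [show q ^ (0 + 2) * (q⁻¹) ^ 2 = 1 by field_simp]
          simp
        · rw [indicator_of_notMem (show q ∉ Iio ρ from h)]
          simp
    _ ≤ ∫⁻ q, (Ioo 0 ρ).indicator 1 q := setLIntegral_le_lintegral _ _
    _ < ⊤ := by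
        rw [lintegral_indicator_one measurableSet_Ioo]
        exact measure_Ioo_lt_top

end Pool.Agent.Q171.Hol
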