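import Pool.Agent.Q171.Hol.Pot

/-! # The maximum principle for potentials -/

set_option autoImplicit false

open MeasureTheory Set Filter Topology Metric
open scoped ENNReal

namespace Pool.Agent.Q171.Hol

variable {M ρ M' ρ' : ℝ} {f h : E3 → ℝ}

/-- the defect kernel -/
noncomputable def dk (r : ℝ) (c y : E3) : ℝ := Sg * (r ^ 3 / 3 * ‖c - y‖⁻¹ - PR r ‖y - c‖)

lemma dk_nonneg {r : ℝ} (hr : 0 ≤ r) {c y : E3} (h : c - y ≠ 0) : 0 ≤ dk r c y := by
  unfold dk
  have h1 : 0 < ‖c - y‖ := norm_pos_iff.2 h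
  have h2 := PR_le hr h1
  rw [norm_sub_rev y c]
  exact mul_nonneg Sg_pos.le (by linarith)

lemma dk_pos {r : ℝ} {c y : E3} (h : c - y ≠ 0) (hy : y ∈ ball c r) : 0 < dk r c y := by
  unfold dk
  have h1 : 0 < ‖c - y‖ := norm_pos_iff.2 h
  rw [mem_ball, dist_eq_norm, norm_sub_rev] at hy
  have h2 := PR_lt h1 hy
  rw [norm_sub_rev y c]
  exact mul_pos Sg_pos (by linarith)

lemma dk_zero {r : ℝ} (hr : 0 ≤ r) {c y : E3} (hy : y ∉ ball c r) : dk r c y = 0 := by
  unfold dk
  rw [mem_ball, dist_eq_norm, not_lt] at hy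
  rw [PR_out hr hy, norm_sub_rev c y]
  ring

lemma PR_bound {r t : ℝ} (hr : 0 ≤ r) (ht : 0 ≤ t) : PR r t ≤ r ^ 2 / 2 := by
  rcases le_total r t with h | h
  · rw [PR_out hr h]
    rcases hr.eq_or_lt with h0 | h0
    · rw [← h0]; norm_num
    · have ht0 : 0 < t := lt_of_lt_of_le h0 h
      rw [← div_eq_mul_inv, div_le_iff₀ ht0]
      nlinarith [mul_le_mul_of_nonneg_left h (sq_nonneg r), pow_pos h0 3]
  · rw [PR_in ht h]; nlinarith [sq_nonneg t]

lemma PR_cont (r : ℝ) (hr : 0 ≤ r) : Measurable (fun t : ℝ => PR r |t|) := by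
  have e : (fun t : ℝ => PR r |t|) = fun t => if r ≤ |t| then r ^ 3 / 3 * |t|⁻¹ else r ^ 2 / 2 - |t| ^ 2 / 6 := by
    ext t
    split_ifs with h
    · exact PR_out hr h
    · exact PR_in (abs_nonneg _) (le_of_not_ge h)
  rw [e]
  exact Measurable.ite (measurableSet_le measurable_const (by fun_prop)) (by fun_prop) (by fun_prop)

lemma PR_meas (r : ℝ) (hr : 0 ≤ r) (c : E3) : Measurable (fun y : E3 => PR r ‖y - c‖) := by
  have := (PR_cont r hr).comp (by fun_prop : Measurable (fun y : E3 => ‖y - c‖))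
  simpa [Function.comp_def] using this

lemma Nice.defect (hf : Nice M ρ f) (c : E3) {r : ℝ} (hr : 0 ≤ r) :
    Integrable (fun y => f y * dk r c y) ∧
    volume.real (ball c r) * Vp f c - ∫ x in ball c r, Vp f x = ∫ y, f y * dk r c y := by
  have h1 : Integrable (fun y => f y * (Sg * PR r ‖y - c‖)) := by
    apply hf.int_mul _ ((PR_meas r hr c).const_mul _)
    apply Measure.integrableOn_of_bounded (M := Sg * (r ^ 2 / 2)) measure_ball_lt_top.ne
      ((PR_meas r hr c).const_mul _).aestronglyMeasurable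
    refine ae_of_all _ fun y => ?_
    rw [Real.norm_of_nonneg (mul_nonneg Sg_pos.le (PR_nonneg hr (norm_nonneg _)))]
    exact mul_le_mul_of_nonneg_left (PR_bound hr (norm_nonneg _)) Sg_pos.le
  have h2 := (hf.int c).const_mul (Sg * (r ^ 3 / 3))
  have e : (fun y => f y * dk r c y) =
      fun y => Sg * (r ^ 3 / 3) * (f y * ‖c - y‖⁻¹) - f y * (Sg * PR r ‖y - c‖) := by
    ext y
    unfold dk
    ring
  refine ⟨by rw [e]; exact h2.sub h1, ?_⟩
  rw [hf.avg c hr, vol_b c hr, e, integral_sub h2 h1, integral_const_mul]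
  rfl

/-- the sub-mean-value property -/
lemma Nice.submean (hf : Nice M ρ f) {c : E3} {r : ℝ} (hr : 0 ≤ r)
    (hn : ∀ᵐ y, y ∈ ball c r → f y ≤ 0) :
    volume.real (ball c r) * Vp f c ≤ ∫ x in ball c r, Vp f x := by
  have h1 := (hf.defect c hr).2
  have h2 : ∫ y, f y * dk r c y ≤ 0 := by
    apply integral_nonpos_of_ae
    filter_upwards [hn, ae_ne c] with y hy1 hy2
    by_cases h3 : y ∈ ball c r
    · exact mul_nonpos_of_nonpos_of_nonneg (hy1 h3) (dk_nonneg hr hy2)
    · rw [dk_zero hr h3, mul_zero]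
      exact le_rfl
  linarith

/-- a nonnegative density with locally constant potential vanishes -/
lemma Nice.zero_of_const (hf : Nice M ρ f) {c : E3} {r : ℝ} (hr : 0 ≤ r)
    (h0 : ∀ y, 0 ≤ f y) (hc : ∀ x ∈ ball c r, Vp f x = Vp f c) :
    ∀ᵐ y, y ∈ ball c r → f y = 0 := by
  have h1 := hf.defect c hr
  have h2 : ∫ x in ball c r, Vp f x = volume.real (ball c r) * Vp f c := by
    rw [setIntegral_congr_fun measurableSet_ball hc, setIntegral_const, smul_eq_mul]
  rw [h2, sub_self] at h1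
  have h3 : 0 ≤ᵐ[volume] fun y => f y * dk r c y := by
    filter_upwards [ae_ne c] with y hy
    exact mul_nonneg (h0 y) (dk_nonneg hr hy)
  have h4 := (integral_eq_zero_iff_of_nonneg_ae h3 h1.1).1 h1.2.symm
  filter_upwards [h4, ae_ne c] with y hy1 hy2 hy3
  have h5 : f y * dk r c y = 0 := hy1
  exact (mul_eq_zero.1 h5).resolve_right (dk_pos hy2 hy3).ne'

/-- the maximum principle -/
theorem Nice.mp (hf : Nice M ρ f) (hρ : 0 ≤ ρ) {a : ℝ} (ha : a ≤ 0) {D : Set E3} (hD : IsOpen D)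
    (hb : ∀ x ∈ frontier D, Vp f x + a ≤ 0)
    (hn : ∀ᵐ y, y ∈ D → 0 < Vp f y + a → f y ≤ 0) :
    ∀ x ∈ D, Vp f x + a ≤ 0 := by
  by_contra hcon
  push Not at hcon
  obtain ⟨x1, hx1, hp⟩ := hcon
  have hcV := hf.Vp_cont
  set t := Vp f x1 with ht
  have htpos : 0 < t := by linarith
  -- a compact superlevel set
  set S : Set E3 := closure D ∩ {x | t ≤ Vp f x} with hS
  have hScl : IsClosed S := isClosed_closure.inter (isClosed_le continuous_const hcV)
  have hSbd : Bornology.IsBounded S := by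
    obtain ⟨R, hR⟩ := hf.Vp_decay hρ htpos
    refine (isBounded_ball (x := (0:E3)) (r := R)).subset fun x hx => ?_
    by_contra hxR
    have h1 := hR x (by simpa using hxR)
    have h2 : t ≤ Vp f x := hx.2
    have h3 := le_abs_self (Vp f x)
    linarith
  have hSc : IsCompact S := isCompact_of_isClosed_isBounded hScl hSbd
  have hx1S : x1 ∈ S := ⟨subset_closure hx1, by
    show t ≤ Vp f x1
    rw [ht]⟩
  obtain ⟨x2, hx2S, hx2⟩ := hSc.exists_isMaxOn ⟨x1, hx1S⟩ hcV.continuousOn
  set m := Vp f x2 with hm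
  have hmt : t ≤ m := hx2S.2
  have hmax : ∀ x ∈ closure D, Vp f x ≤ m := by
    intro x hx
    by_cases h : t ≤ Vp f x
    · exact hx2 ⟨hx, h⟩
    · push Not at h
      exact (h.le).trans hmt
  -- the point of `Z` of largest norm
  set Z : Set E3 := S ∩ {x | Vp f x = m} with hZ
  have hZc : IsCompact Z := hSc.inter_right (isClosed_eq hcV continuous_const)
  obtain ⟨x3, hx3Z, hx3⟩ := hZc.exists_isMaxOn ⟨x2, hx2S, rfl⟩ continuous_norm.continuousOn
  have hx3m : Vp f x3 = m := hx3Z.2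
  have hx3D : x3 ∈ D := by
    by_contra hnD
    have h1 : x3 ∈ frontier D := by
      rw [hD.frontier_eq]
      exact ⟨hx3Z.1.1, hnD⟩
    have h2 := hb x3 h1
    rw [hx3m] at h2
    linarith
  -- a small ball
  have hopen : IsOpen (D ∩ {x | 0 < Vp f x + a}) :=
    hD.inter (isOpen_lt continuous_const (hcV.add continuous_const))
  obtain ⟨r, hr, hball⟩ := Metric.isOpen_iff.1 hopen x3 ⟨hx3D, by
    show 0 < Vp f x3 + a
    rw [hx3m]; linarith⟩
  have hsub := hf.submean (c := x3) hr.le (by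
    filter_upwards [hn] with y hy hyb
    exact hy (hball hyb).1 (hball hyb).2)
  rw [hx3m] at hsub
  have hint : IntegrableOn (Vp f) (ball x3 r) :=
    (hcV.locallyIntegrable.integrableOn_isCompact
        (isCompact_closedBall x3 r)).mono_set ball_subset_closedBall
  have hcst : IntegrableOn (fun _ : E3 => m) (ball x3 r) := integrableOn_const measure_ball_lt_top.ne
  have hi2 : ∫ x in ball x3 r, (m - Vp f x) ≤ 0 := by
    have e1 : ∫ x in ball x3 r, (m - Vp f x) = (∫ x in ball x3 r, m) - ∫ x in ball x3 r, Vp f x :=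
      integral_sub hcst hint
    rw [e1, setIntegral_const, smul_eq_mul]
    linarith
  have hnn : ∀ x ∈ ball x3 r, 0 ≤ m - Vp f x := by
    intro x hx
    have := hmax x (subset_closure (hball hx).1)
    linarith
  have hz : ∫ x in ball x3 r, (m - Vp f x) = 0 :=
    le_antisymm hi2 (setIntegral_nonneg measurableSet_ball hnn)
  have hae := (setIntegral_eq_zero_iff_of_nonneg_ae (μ := volume)
    (by
      rw [Filter.EventuallyLE, ae_restrict_iff' measurableSet_ball]
      exact ae_of_all _ hnn) (hcst.sub hint)).1 hz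
  have hall : ∀ x ∈ ball x3 r, m - Vp f x = 0 := by
    have h1 := Measure.eqOn_open_of_ae_eq (μ := volume) (U := ball x3 r)
      (f := fun x => m - Vp f x) (g := fun _ => 0) hae isOpen_ball
      (by fun_prop) continuousOn_const
    exact h1
  -- a point of larger norm
  obtain ⟨v, hv1, hv2⟩ : ∃ v : E3, v ∈ ball x3 r ∧ ‖x3‖ < ‖v‖ := by
    rcases eq_or_ne x3 0 with h0 | h0
    · obtain ⟨w, hw⟩ := exists_norm_eq E3 (show (0:ℝ) ≤ r / 2 by positivity)
      refine ⟨w, ?_, ?_⟩
      · rw [h0]; simp [hw]; linarith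
      · rw [h0, norm_zero, hw]; positivity
    · have hn3 : 0 < ‖x3‖ := norm_pos_iff.2 h0
      refine ⟨(1 + r / 2 / ‖x3‖) • x3, ?_, ?_⟩
      · rw [mem_ball, dist_eq_norm, add_smul, one_smul, add_sub_cancel_left, norm_smul,
          Real.norm_of_nonneg (by positivity)]
        field_simp
        linarith
      · rw [norm_smul, Real.norm_of_nonneg (by positivity)]
        have : 0 < r / 2 / ‖x3‖ * ‖x3‖ := by positivity
        nlinarith
  have hvm : Vp f v = m := by have := hall v hv1; linarith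
  have hvZ : v ∈ Z := ⟨⟨subset_closure (hball hv1).1, by
    show t ≤ Vp f v
    rw [hvm]; exact hmt⟩, hvm⟩
  have : ‖v‖ ≤ ‖x3‖ := hx3 hvZ
  linarith

end Pool.Agent.Q171.Hol
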