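import Pool.Agent.Q171.Hol.Weak

/-! # The obstacle problem -/

set_option autoImplicit false

open MeasureTheory Set Filter Topology Metric
open scoped ENNReal

namespace Pool.Agent.Q171.Hol

variable {U : Set E3} {ρ M M' : ℝ}

lemma Nice.abs {f : E3 → ℝ} (hf : Nice M ρ f) : Nice M ρ (fun x => |f x|) :=
  ⟨hf.meas.abs, fun x => by rw [abs_abs]; exact hf.bdd x, fun x hx => by rw [hf.supp x hx, abs_zero]⟩

/-- integrability of `f` times a continuous function -/
lemma Nice.int_cont {f : E3 → ℝ} (hf : Nice M ρ f) {k : E3 → ℝ} (hk : Continuous k) :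
    Integrable (fun x => f x * k x) :=
  hf.int_mul ((hk.locallyIntegrable.integrableOn_isCompact
    (isCompact_closedBall 0 ρ)).mono_set ball_subset_closedBall) hk.measurable

/-- symmetry of the energy -/
lemma energy_symm {f h : E3 → ℝ} (hf : Nice M ρ f) (hh : Nice M' ρ h) :
    ∫ x, f x * Vp h x = ∫ x, h x * Vp f x := by
  have hmeas : AEStronglyMeasurable (Function.uncurry fun (x y : E3) => f x * (h y * ‖x - y‖⁻¹))
      ((volume : Measure E3).prod volume) := by
    apply Measurable.aestronglyMeasurable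
    exact (hf.meas.comp measurable_fst).mul ((hh.meas.comp measurable_snd).mul (by fun_prop))
  have hint : Integrable (Function.uncurry fun (x y : E3) => f x * (h y * ‖x - y‖⁻¹))
      ((volume : Measure E3).prod volume) := by
    rw [integrable_prod_iff hmeas]
    constructor
    · exact ae_of_all _ fun x => (hh.int x).const_mul (f x)
    · have e : (fun x : E3 => ∫ y, ‖Function.uncurry (fun (x y : E3) => f x * (h y * ‖x - y‖⁻¹)) (x, y)‖) =
          fun x => |f x| * Vp (fun y => |h y|) x := by
        ext x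
        unfold Vp
        rw [← integral_const_mul]
        congr 1
        ext y
        simp [Function.uncurry]
      rw [e]
      exact hf.abs.int_cont hh.abs.Vp_cont
  have h1 := integral_integral_swap hint
  have e1 : ∀ x, ∫ y, f x * (h y * ‖x - y‖⁻¹) = f x * Vp h x := fun x => integral_const_mul _ _
  have e2 : ∀ y, ∫ x, f x * (h y * ‖x - y‖⁻¹) = h y * Vp f y := by
    intro y
    unfold Vp
    rw [← integral_const_mul]
    congr 1
    ext x
    rw [norm_sub_rev]
    ring
  simp only [e1, e2] at h1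
  exact h1

/-- the energy functional -/
noncomputable def JJ (c : ℝ) (g : E3 → ℝ) : ℝ := 1 / 2 * (∫ x, g x * Vp g x) - c * ∫ x, g x

lemma Adm.restrict {g : E3 → ℝ} (hg : Adm U g) (k : E3 → ℝ) (hU : MeasurableSet U) :
    ∫ y in U, g y * k y = ∫ y, g y * k y := by
  rw [← integral_indicator hU]
  congr 1
  ext y
  by_cases h : y ∈ U
  · rw [indicator_of_mem h]
  · rw [indicator_of_notMem h, hg.supp y h, zero_mul]

lemma fin_restrict (hb : U ⊆ ball 0 ρ) : IsFiniteMeasure (volume.restrict U) :=
  ⟨by rw [Measure.restrict_apply_univ]; exact lt_of_le_of_lt (measure_mono hb) measure_ball_lt_top⟩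

lemma Vp_nonneg {g : E3 → ℝ} (hg : ∀ x, 0 ≤ g x) (x : E3) : 0 ≤ Vp g x :=
  integral_nonneg fun y => mul_nonneg (hg y) (by positivity)

lemma Adm.Vp_le {g : E3 → ℝ} (hg : Adm U g) (hb : U ⊆ ball 0 ρ) (hρ : 0 ≤ ρ) (x : E3) :
    |Vp g x| ≤ Sg * (ρ ^ 2 / 2) := by
  have h1 := (hg.nice hb).Vp_abs_le hρ x
  have h2 := PR_bound hρ (norm_nonneg x)
  have h3 := Sg_pos
  rw [one_mul] at h1
  exact h1.trans (mul_le_mul_of_nonneg_left h2 h3.le)

/-- existence of a minimiser -/
theorem exists_min (hU : MeasurableSet U) (hb : U ⊆ ball 0 ρ) (hρ : 0 ≤ ρ) (c : ℝ) :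
    ∃ g, Adm U g ∧ ∀ k, Adm U k → JJ c g ≤ JJ c k := by
  have := fin_restrict hb
  have hV : 0 ≤ (volume U).toReal := ENNReal.toReal_nonneg
  -- bounded below
  have hint1 : ∀ g, Adm U g → |∫ x, g x| ≤ (volume.restrict U).real univ := by
    intro g hg
    have e := hg.restrict (fun _ => 1) hU
    simp only [mul_one] at e
    rw [← e, ← Real.norm_eq_abs]
    have := norm_integral_le_of_norm_le_const (μ := volume.restrict U) (f := g) (C := 1)
      (ae_of_all _ fun x => by rw [Real.norm_of_nonneg (hg.nonneg x)]; exact hg.le_one x)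
    linarith
  have hbb : BddBelow (JJ c '' {g | Adm U g}) := by
    refine ⟨-(|c| * (volume.restrict U).real univ), ?_⟩
    rintro _ ⟨g, hg, rfl⟩
    have hg' : Adm U g := hg
    have h1 : 0 ≤ ∫ x, g x * Vp g x :=
      integral_nonneg fun x => mul_nonneg (hg'.nonneg x) (Vp_nonneg hg'.nonneg x)
    have h2 : c * ∫ x, g x ≤ |c| * (volume.restrict U).real univ := by
      calc c * ∫ x, g x ≤ |c * ∫ x, g x| := le_abs_self _
        _ = |c| * |∫ x, g x| := abs_mul _ _
        _ ≤ _ := mul_le_mul_of_nonneg_left (hint1 g hg') (abs_nonneg _)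
    unfold JJ
    linarith
  have hne : (JJ c '' {g | Adm U g}).Nonempty :=
    ⟨_, (fun _ => 0 : E3 → ℝ), ⟨measurable_const, fun _ => le_rfl, fun _ => zero_le_one, fun _ _ => rfl⟩, rfl⟩
  obtain ⟨u, -, hu2, hu3⟩ := exists_seq_tendsto_sInf hne hbb
  choose gs hgs hgs2 using hu3
  obtain ⟨g, hg, φ, hφ, hw⟩ := weak_seq hU gs hgs
  refine ⟨g, hg, fun k hk => ?_⟩
  -- pointwise convergence of the potentials
  have hpt : ∀ x, Tendsto (fun n => Vp (gs (φ n)) x) atTop (𝓝 (Vp g x)) := by
    intro x
    have hk2 : MemLp (fun y : E3 => ‖x - y‖⁻¹) 2 (volume.restrict U) := by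
      rw [memLp_two_iff_integrable_sq (by
        exact (by fun_prop : Measurable fun y : E3 => ‖x - y‖⁻¹).aestronglyMeasurable)]
      exact (ker_sq_int x 0 ρ).mono_set hb
    have h1 := hw _ hk2
    simp only [(hgs _).restrict _ hU, hg.restrict _ hU] at h1
    exact h1
  have hB := fun n => (hgs n).Vp_le hb hρ
  have hBg := hg.Vp_le hb hρ
  have hS := Sg_pos
  -- convergence of the energy
  have hcm : ∀ f, Adm U f → Measurable (Vp f) := fun f hf => (hf.nice hb).Vp_cont.measurable
  have hd1 : Tendsto (fun n => ∫ x in U, |Vp (gs (φ n)) x - Vp g x|) atTop (𝓝 0) := by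
    have : Tendsto (fun n => ∫ x in U, |Vp (gs (φ n)) x - Vp g x|) atTop (𝓝 (∫ x in U, (0:ℝ))) := by
      apply tendsto_integral_of_dominated_convergence (fun _ => Sg * (ρ ^ 2 / 2) + Sg * (ρ ^ 2 / 2))
      · intro n
        exact ((hcm _ (hgs _)).sub (hcm _ hg)).abs.aestronglyMeasurable
      · exact integrable_const _
      · intro n
        refine ae_of_all _ fun x => ?_
        rw [Real.norm_of_nonneg (abs_nonneg _)]
        exact (abs_sub _ _).trans (add_le_add (hB _ x) (hBg x))
      · refine ae_of_all _ fun x => ?_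
        have := ((hpt x).sub_const (Vp g x)).abs
        simpa using this
    simpa using this
  have hd2 : Tendsto (fun n => ∫ x, gs (φ n) x * Vp g x) atTop (𝓝 (∫ x, g x * Vp g x)) := by
    have h1 := hw (Vp g) (MemLp.of_bound (hcm _ hg).aestronglyMeasurable (Sg * (ρ ^ 2 / 2))
      (ae_of_all _ fun x => hBg x))
    simp only [(hgs _).restrict _ hU, hg.restrict _ hU] at h1
    exact h1
  have hd3 : Tendsto (fun n => ∫ x, gs (φ n) x * Vp (gs (φ n)) x) atTop (𝓝 (∫ x, g x * Vp g x)) := by
    have h2 : Tendsto (fun n => (∫ x, gs (φ n) x * Vp (gs (φ n)) x) - ∫ x, gs (φ n) x * Vp g x)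
        atTop (𝓝 0) := by
      apply squeeze_zero_norm _ hd1
      intro n
      have hn1 := (hgs (φ n)).nice hb
      rw [← integral_sub (hn1.int_cont hn1.Vp_cont) (hn1.int_cont (hg.nice hb).Vp_cont)]
      have e : ∫ x, (gs (φ n) x * Vp (gs (φ n)) x - gs (φ n) x * Vp g x) =
          ∫ x in U, gs (φ n) x * (Vp (gs (φ n)) x - Vp g x) := by
        rw [(hgs (φ n)).restrict _ hU]
        congr 1
        ext x
        ring
      rw [e]
      apply norm_integral_le_of_norm_le
      · refine Integrable.mono' (g := fun _ => Sg * (ρ ^ 2 / 2) + Sg * (ρ ^ 2 / 2)) (integrable_const _)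
          ((hcm _ (hgs _)).sub (hcm _ hg)).abs.aestronglyMeasurable ?_
        refine ae_of_all _ fun x => ?_
        rw [Real.norm_of_nonneg (abs_nonneg _)]
        exact (abs_sub _ _).trans (add_le_add (hB _ x) (hBg x))
      · refine ae_of_all _ fun x => ?_
        rw [norm_mul, Real.norm_of_nonneg ((hgs _).nonneg x), Real.norm_eq_abs]
        calc gs (φ n) x * |Vp (gs (φ n)) x - Vp g x| ≤ 1 * |Vp (gs (φ n)) x - Vp g x| :=
              mul_le_mul_of_nonneg_right ((hgs _).le_one x) (abs_nonneg _)
          _ = _ := one_mul _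
    have := h2.add hd2
    simpa using this
  have hd4 : Tendsto (fun n => ∫ x, gs (φ n) x) atTop (𝓝 (∫ x, g x)) := by
    have h1 := hw (fun _ => 1) (memLp_const 1)
    simp only [(hgs _).restrict (fun _ => 1) hU, hg.restrict (fun _ => 1) hU] at h1
    simpa using h1
  have hJ : Tendsto (fun n => JJ c (gs (φ n))) atTop (𝓝 (JJ c g)) := by
    unfold JJ
    exact (hd3.const_mul _).sub (hd4.const_mul _)
  have hJ2 : Tendsto (fun n => JJ c (gs (φ n))) atTop (𝓝 (sInf (JJ c '' {g | Adm U g}))) := by
    have := hu2.comp hφ.tendsto_atTop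
    refine this.congr fun n => ?_
    exact (hgs2 (φ n)).symm
  rw [tendsto_nhds_unique hJ hJ2]
  exact csInf_le hbb ⟨k, hk, rfl⟩

/-- the variational inequality -/
theorem var_ineq (hb : U ⊆ ball 0 ρ) {c : ℝ} {g : E3 → ℝ} (hg : Adm U g)
    (hmin : ∀ k, Adm U k → JJ c g ≤ JJ c k) {k : E3 → ℝ} (hk : Adm U k) :
    0 ≤ ∫ x, (k x - g x) * (Vp g x - c) := by
  have hgn := hg.nice hb
  have hkn := hk.nice hb
  have hdn : Nice (1 + 1) ρ (fun x => k x - g x) := hkn.sub hgn
  set d : E3 → ℝ := fun x => k x - g x with hd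
  have hVs : ∀ (t : ℝ) (x : E3), Vp (fun y => g y + t * d y) x = Vp g x + t * Vp d x := by
    intro t x
    unfold Vp
    rw [← integral_const_mul, ← integral_add (hgn.int x) ((hdn.int x).const_mul t)]
    congr 1
    ext y
    ring
  have i1 := hgn.int_cont hgn.Vp_cont
  have i2 := hgn.int_cont hdn.Vp_cont
  have i3 := hdn.int_cont hgn.Vp_cont
  have i4 := hdn.int_cont hdn.Vp_cont
  set Q := ∫ x, d x * Vp d x with hQ
  set L := (∫ x, d x * Vp g x) - c * ∫ x, d x with hL
  have hexp : ∀ t : ℝ, JJ c (fun y => g y + t * d y) = JJ c g + t * L + t ^ 2 / 2 * Q := by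
    intro t
    have e1 : ∫ x, (g x + t * d x) * Vp (fun y => g y + t * d y) x =
        (∫ x, g x * Vp g x) + t * (∫ x, g x * Vp d x) + t * (∫ x, d x * Vp g x) + t ^ 2 * Q := by
      have j12 : ∫ x, (g x * Vp g x + t * (g x * Vp d x)) = (∫ x, g x * Vp g x) + t * (∫ x, g x * Vp d x) := by
        rw [← integral_const_mul, ← integral_add i1 (i2.const_mul t)]
      have j34 : ∫ x, (t * (d x * Vp g x) + t ^ 2 * (d x * Vp d x)) =
          t * (∫ x, d x * Vp g x) + t ^ 2 * Q := by
        rw [hQ, ← integral_const_mul, ← integral_const_mul, ← integral_add (i3.const_mul t) (i4.const_mul _)]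
      have j : ∫ x, ((g x * Vp g x + t * (g x * Vp d x)) + (t * (d x * Vp g x) + t ^ 2 * (d x * Vp d x))) =
          (∫ x, (g x * Vp g x + t * (g x * Vp d x))) + ∫ x, (t * (d x * Vp g x) + t ^ 2 * (d x * Vp d x)) :=
        integral_add (i1.add (i2.const_mul t)) ((i3.const_mul t).add (i4.const_mul _))
      rw [add_assoc, ← j12, ← j34, ← j]
      congr 1
      ext x
      rw [hVs]
      ring
    have e2 : ∫ x, (g x + t * d x) = (∫ x, g x) + t * ∫ x, d x := by
      rw [← integral_const_mul, ← integral_add hgn.integrable (hdn.integrable.const_mul t)]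
    have e3 : ∫ x, g x * Vp d x = ∫ x, d x * Vp g x := energy_symm hgn hdn
    unfold JJ
    rw [e1, e2, e3, hL]
    ring
  have hadm : ∀ t : ℝ, 0 ≤ t → t ≤ 1 → Adm U (fun y => g y + t * d y) := by
    intro t h0 h1
    refine ⟨hg.meas.add (hdn.meas.const_mul t), fun x => ?_, fun x => ?_, fun x hx => ?_⟩
    · have a1 := hg.nonneg x
      have a2 := hk.nonneg x
      simp only [hd]
      nlinarith [mul_nonneg h0 a2, mul_nonneg (sub_nonneg.2 h1) a1]
    · have a1 := hg.le_one x
      have a2 := hk.le_one x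
      simp only [hd]
      nlinarith [mul_le_mul_of_nonneg_left a2 h0, mul_le_mul_of_nonneg_left a1 (sub_nonneg.2 h1)]
    · simp only [hd]
      rw [hg.supp x hx, hk.supp x hx]; ring
  have hineq : ∀ t : ℝ, 0 < t → t ≤ 1 → 0 ≤ L + t / 2 * Q := by
    intro t h0 h1
    have h2 := hmin _ (hadm t h0.le h1)
    rw [hexp t] at h2
    have h3 : 0 ≤ t * (L + t / 2 * Q) := by nlinarith
    exact nonneg_of_mul_nonneg_right h3 h0
  have hLn : 0 ≤ L := by
    have hc : Tendsto (fun t : ℝ => L + t / 2 * Q) (𝓝[>] 0) (𝓝 (L + 0 / 2 * Q)) :=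
      (Continuous.tendsto (by fun_prop) _).mono_left nhdsWithin_le_nhds
    have h1 : 0 ≤ L + 0 / 2 * Q := by
      apply ge_of_tendsto hc
      filter_upwards [Ioc_mem_nhdsGT (show (0:ℝ) < 1 by norm_num)] with t ht
      exact hineq t ht.1 ht.2
    simpa using h1
  have e : ∫ x, d x * (Vp g x - c) = L := by
    rw [hL, ← integral_const_mul, ← integral_sub i3 (hdn.integrable.const_mul c)]
    congr 1
    ext x
    ring
  rw [e]
  exact hLn

/-- the solution of the obstacle problem -/
theorem exists_obst (hU : MeasurableSet U) (hb : U ⊆ ball 0 ρ) (hρ : 0 ≤ ρ) {c : ℝ} (hc : 0 ≤ c) :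
    ∃ g, Adm U g ∧ (∀ᵐ x, x ∈ U → Vp g x < c → g x = 1) ∧ ∀ x, Vp g x ≤ c := by
  obtain ⟨g, hg, hmin⟩ := exists_min hU hb hρ c
  have hgn := hg.nice hb
  have hcont := hgn.Vp_cont
  have key1 : ∀ᵐ x, x ∈ U → Vp g x < c → g x = 1 := by
    classical
    set A : Set E3 := U ∩ {x | Vp g x < c} with hA
    have hAm : MeasurableSet A := hU.inter (isOpen_lt hcont continuous_const).measurableSet
    have hk : Adm U (fun x => if x ∈ A then 1 else g x) := by
      refine ⟨Measurable.ite hAm measurable_const hg.meas, fun x => ?_, fun x => ?_, fun x hx => ?_⟩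
      · split_ifs
        · exact zero_le_one
        · exact hg.nonneg x
      · split_ifs
        · exact le_rfl
        · exact hg.le_one x
      · rw [if_neg (fun h : x ∈ A => hx h.1)]; exact hg.supp x hx
    have h1 := var_ineq hb hg hmin hk
    have hdn := (hk.nice hb).sub hgn
    have hi := hdn.int_cont (hcont.sub (continuous_const (y := c)))
    have h2 : ∀ x, ((if x ∈ A then 1 else g x) - g x) * (Vp g x - c) ≤ 0 := by
      intro x
      split_ifs with hx
      · have a1 : Vp g x < c := hx.2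
        have a2 := hg.le_one x
        exact mul_nonpos_of_nonneg_of_nonpos (by linarith) (by linarith)
      · rw [sub_self, zero_mul]
    have h3 : ∫ x, -(((if x ∈ A then 1 else g x) - g x) * (Vp g x - c)) = 0 := by
      rw [integral_neg]
      have := integral_nonpos (μ := (volume : Measure E3)) h2
      linarith
    have h4 := (integral_eq_zero_iff_of_nonneg (μ := (volume : Measure E3))
      (fun x => neg_nonneg.2 (h2 x)) hi.neg).1 h3
    filter_upwards [h4] with x hx hxU hxc
    have h5 : -(((if x ∈ A then 1 else g x) - g x) * (Vp g x - c)) = 0 := hx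
    rw [if_pos (show x ∈ A from ⟨hxU, hxc⟩), neg_eq_zero] at h5
    rcases mul_eq_zero.1 h5 with h6 | h6
    · linarith
    · linarith
  have key2 : ∀ᵐ x, c < Vp g x → g x = 0 := by
    classical
    set A : Set E3 := {x | c < Vp g x} with hA
    have hAm : MeasurableSet A := (isOpen_lt continuous_const hcont).measurableSet
    have hk : Adm U (fun x => if x ∈ A then 0 else g x) := by
      refine ⟨Measurable.ite hAm measurable_const hg.meas, fun x => ?_, fun x => ?_, fun x hx => ?_⟩
      · split_ifs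
        · exact le_rfl
        · exact hg.nonneg x
      · split_ifs
        · exact zero_le_one
        · exact hg.le_one x
      · split_ifs
        · rfl
        · exact hg.supp x hx
    have h1 := var_ineq hb hg hmin hk
    have hdn := (hk.nice hb).sub hgn
    have hi := hdn.int_cont (hcont.sub (continuous_const (y := c)))
    have h2 : ∀ x, ((if x ∈ A then 0 else g x) - g x) * (Vp g x - c) ≤ 0 := by
      intro x
      split_ifs with hx
      · have a1 : c < Vp g x := hx
        have a2 := hg.nonneg x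
        exact mul_nonpos_of_nonpos_of_nonneg (by linarith) (by linarith)
      · rw [sub_self, zero_mul]
    have h3 : ∫ x, -(((if x ∈ A then 0 else g x) - g x) * (Vp g x - c)) = 0 := by
      rw [integral_neg]
      have := integral_nonpos (μ := (volume : Measure E3)) h2
      linarith
    have h4 := (integral_eq_zero_iff_of_nonneg (μ := (volume : Measure E3))
      (fun x => neg_nonneg.2 (h2 x)) hi.neg).1 h3
    filter_upwards [h4] with x hx hxc
    have h5 : -(((if x ∈ A then 0 else g x) - g x) * (Vp g x - c)) = 0 := hx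
    rw [if_pos (show x ∈ A from hxc), neg_eq_zero] at h5
    rcases mul_eq_zero.1 h5 with h6 | h6
    · linarith
    · linarith
  refine ⟨g, hg, key1, fun x => ?_⟩
  have := hgn.mp hρ (a := -c) (by linarith) isOpen_univ (by simp) (by
    filter_upwards [key2] with y hy _ hy2
    rw [hy (by linarith)]) x (mem_univ x)
  linarith

end Pool.Agent.Q171.Hol
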