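import Pool.Agent.Q171.Hol.Ker

/-! # Newton potentials of bounded compactly supported functions -/

set_option autoImplicit false

open MeasureTheory Set Filter Topology Metric
open scoped ENNReal

namespace Pool.Agent.Q171.Hol

/-- bounded, measurable, vanishing outside a ball -/
structure Nice (M ρ : ℝ) (f : E3 → ℝ) : Prop where
  meas : Measurable f
  bdd : ∀ x, |f x| ≤ M
  supp : ∀ x, ρ ≤ ‖x‖ → f x = 0

/-- the potential -/
noncomputable def Vp (f : E3 → ℝ) (x : E3) : ℝ := ∫ y, f y * ‖x - y‖⁻¹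

variable {M ρ M' ρ' : ℝ} {f h : E3 → ℝ}

lemma Nice.M_nonneg (hf : Nice M ρ f) : 0 ≤ M := (abs_nonneg _).trans (hf.bdd 0)

lemma Nice.mono (hf : Nice M ρ f) (hM : M ≤ M') (hρ : ρ ≤ ρ') : Nice M' ρ' f :=
  ⟨hf.meas, fun x => (hf.bdd x).trans hM, fun x hx => hf.supp x (hρ.trans hx)⟩

lemma Nice.sub (hf : Nice M ρ f) (hh : Nice M' ρ h) : Nice (M + M') ρ (fun x => f x - h x) :=
  ⟨hf.meas.sub hh.meas, fun x => (abs_sub _ _).trans (add_le_add (hf.bdd x) (hh.bdd x)),
    fun x hx => by rw [hf.supp x hx, hh.supp x hx, sub_zero]⟩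

lemma Nice.le_ind (hf : Nice M ρ f) {k : E3 → ℝ} (y : E3) :
    ‖f y * k y‖ ≤ (ball (0 : E3) ρ).indicator (fun y => M * |k y|) y := by
  by_cases hy : y ∈ ball (0 : E3) ρ
  · rw [indicator_of_mem hy, norm_mul, Real.norm_eq_abs, Real.norm_eq_abs]
    exact mul_le_mul_of_nonneg_right (hf.bdd y) (abs_nonneg _)
  · rw [indicator_of_notMem hy, hf.supp y (by simpa using hy)]; simp

lemma Nice.int_mul (hf : Nice M ρ f) {k : E3 → ℝ} (hk : IntegrableOn k (ball (0 : E3) ρ))
    (hm : Measurable k) : Integrable (fun y => f y * k y) := by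
  have h1 : Integrable ((ball (0 : E3) ρ).indicator (fun y => M * |k y|)) := by
    rw [integrable_indicator_iff measurableSet_ball]
    exact hk.abs.const_mul M
  exact h1.mono' (hf.meas.mul hm).aestronglyMeasurable (ae_of_all _ fun y => hf.le_ind y)

lemma Nice.norm_int_le (hf : Nice M ρ f) {k : E3 → ℝ} (hk : IntegrableOn k (ball (0 : E3) ρ))
    (_hm : Measurable k) : |∫ y, f y * k y| ≤ M * ∫ y in ball (0 : E3) ρ, |k y| := by
  have h1 : Integrable ((ball (0 : E3) ρ).indicator (fun y => M * |k y|)) := by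
    rw [integrable_indicator_iff measurableSet_ball]
    exact hk.abs.const_mul M
  calc |∫ y, f y * k y| ≤ ∫ y, (ball (0 : E3) ρ).indicator (fun y => M * |k y|) y :=
        norm_integral_le_of_norm_le h1 (ae_of_all _ fun y => hf.le_ind y)
    _ = M * ∫ y in ball (0 : E3) ρ, |k y| := by
        rw [integral_indicator measurableSet_ball, integral_const_mul]

lemma Nice.int (hf : Nice M ρ f) (x : E3) : Integrable (fun y => f y * ‖x - y‖⁻¹) :=
  hf.int_mul (ker_int x 0 ρ) (by fun_prop)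

lemma Vp_sub (hf : Nice M ρ f) (hh : Nice M' ρ' h) (x : E3) :
    Vp (fun y => f y - h y) x = Vp f x - Vp h x := by
  unfold Vp
  rw [← integral_sub (hf.int x) (hh.int x)]
  congr 1
  ext y
  ring

lemma Nice.Vp_abs_le (hf : Nice M ρ f) (hρ : 0 ≤ ρ) (x : E3) : |Vp f x| ≤ M * (Sg * PR ρ ‖x‖) := by
  have h1 := hf.norm_int_le (ker_int x 0 ρ) (by fun_prop)
  have h2 := pot_r x 0 hρ
  rw [sub_zero] at h2
  have h3 : ∫ y in ball (0 : E3) ρ, |‖x - y‖⁻¹| = ∫ y in ball (0 : E3) ρ, ‖x - y‖⁻¹ := by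
    congr 1
    ext y
    exact abs_of_nonneg (by positivity)
  rw [h3, h2] at h1
  exact h1

lemma Nice.Vp_decay (hf : Nice M ρ f) (hρ : 0 ≤ ρ) {ε : ℝ} (hε : 0 < ε) :
    ∃ R, ∀ x, R ≤ ‖x‖ → |Vp f x| < ε := by
  have hM := hf.M_nonneg
  have hC : 0 ≤ M * (Sg * (ρ ^ 3 / 3)) := by have := Sg_pos; positivity
  refine ⟨max ρ (M * (Sg * (ρ ^ 3 / 3)) / ε + 1), fun x hx => ?_⟩
  have h1 : ρ ≤ ‖x‖ := (le_max_left _ _).trans hx
  have h2 : M * (Sg * (ρ ^ 3 / 3)) / ε + 1 ≤ ‖x‖ := (le_max_right _ _).trans hx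
  have h3 : 0 < ‖x‖ := lt_of_lt_of_le (by positivity) h2
  refine lt_of_le_of_lt (hf.Vp_abs_le hρ x) ?_
  rw [PR_out hρ h1]
  have h4 : M * (Sg * (ρ ^ 3 / 3)) / ε < ‖x‖ := by linarith
  rw [div_lt_iff₀ hε] at h4
  rw [show M * (Sg * (ρ ^ 3 / 3 * ‖x‖⁻¹)) = M * (Sg * (ρ ^ 3 / 3)) / ‖x‖ by field_simp,
    div_lt_iff₀ h3]
  linarith

/-- the regularised potential -/
noncomputable def Vd (δ : ℝ) (f : E3 → ℝ) (x : E3) : ℝ := ∫ y, f y * (max ‖x - y‖ δ)⁻¹

lemma Nice.integrable (hf : Nice M ρ f) : Integrable f := by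
  have := hf.int_mul (k := fun _ => 1) (by
    exact integrableOn_const (by exact measure_ball_lt_top.ne) ) measurable_const
  simpa using this

lemma Nice.Vd_cont (hf : Nice M ρ f) {δ : ℝ} (hδ : 0 < δ) : Continuous (Vd δ f) := by
  apply continuous_of_dominated (bound := fun y => |f y| * δ⁻¹)
  · intro x
    exact (hf.meas.mul (by fun_prop)).aestronglyMeasurable
  · intro x
    refine ae_of_all _ fun y => ?_
    rw [norm_mul, Real.norm_eq_abs]
    apply mul_le_mul_of_nonneg_left _ (abs_nonneg _)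
    have h0 : 0 < max ‖x - y‖ δ := lt_max_of_lt_right hδ
    rw [Real.norm_of_nonneg (by positivity)]
    exact inv_anti₀ hδ (le_max_right _ _)
  · exact hf.integrable.abs.mul_const _
  · refine ae_of_all _ fun y => ?_
    apply Continuous.mul continuous_const
    apply Continuous.inv₀ (by fun_prop)
    intro x
    exact (lt_max_of_lt_right hδ).ne'

lemma ker_diff {z : E3} (h0 : z ≠ 0) {δ : ℝ} (hδ : 0 < δ) :
    |‖z‖⁻¹ - (max ‖z‖ δ)⁻¹| ≤ (ball (0:E3) δ).indicator (fun z => ‖z‖⁻¹) z := by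
  by_cases hz : z ∈ ball (0 : E3) δ
  · rw [indicator_of_mem hz]
    have h1 : ‖z‖ < δ := by simpa using hz
    rw [max_eq_right h1.le]
    have h2 : 0 < ‖z‖ := norm_pos_iff.2 h0
    have h3 : δ⁻¹ ≤ ‖z‖⁻¹ := inv_anti₀ h2 h1.le
    have h4 : 0 < δ⁻¹ := by positivity
    rw [abs_of_nonneg (by linarith)]
    linarith
  · rw [indicator_of_notMem hz]
    have h1 : δ ≤ ‖z‖ := by simpa using hz
    rw [max_eq_left h1, sub_self, abs_zero]

lemma ae_ne (x : E3) : ∀ᵐ y : E3, x - y ≠ 0 := by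
  have : ∀ᵐ y : E3, y ≠ x := by
    rw [ae_iff]
    simp
  filter_upwards [this] with y hy
  exact sub_ne_zero.2 (Ne.symm hy)

lemma Nice.Vd_int (hf : Nice M ρ f) {δ : ℝ} (hδ : 0 < δ) (x : E3) :
    Integrable (fun y => f y * (max ‖x - y‖ δ)⁻¹) := by
  refine (hf.integrable.abs.mul_const δ⁻¹).mono' (hf.meas.mul (by fun_prop)).aestronglyMeasurable
    (ae_of_all _ fun y => ?_)
  rw [norm_mul, Real.norm_eq_abs]
  apply mul_le_mul_of_nonneg_left _ (abs_nonneg _)
  have h0 : 0 < max ‖x - y‖ δ := lt_max_of_lt_right hδ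
  rw [Real.norm_of_nonneg (by positivity)]
  exact inv_anti₀ hδ (le_max_right _ _)

lemma Nice.Vp_Vd (hf : Nice M ρ f) {δ : ℝ} (hδ : 0 < δ) (x : E3) :
    |Vp f x - Vd δ f x| ≤ M * (Sg * (δ ^ 2 / 2)) := by
  unfold Vp Vd
  rw [← integral_sub (hf.int x) (hf.Vd_int hδ x)]
  have h1 : Integrable ((ball x δ).indicator (fun y => M * ‖x - y‖⁻¹)) := by
    rw [integrable_indicator_iff measurableSet_ball]
    exact (ker_int x x δ).const_mul M
  calc |∫ y, (f y * ‖x - y‖⁻¹ - f y * (max ‖x - y‖ δ)⁻¹)|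
      ≤ ∫ y, (ball x δ).indicator (fun y => M * ‖x - y‖⁻¹) y := by
        rw [← Real.norm_eq_abs]
        apply norm_integral_le_of_norm_le h1
        filter_upwards [ae_ne x] with y hy
        have h2 := ker_diff hy hδ
        rw [← mul_sub, norm_mul, Real.norm_eq_abs, Real.norm_eq_abs]
        by_cases h3 : y ∈ ball x δ
        · rw [indicator_of_mem h3]
          rw [indicator_of_mem (by
            rw [mem_ball, dist_eq_norm, norm_sub_rev] at h3
            simpa using h3)] at h2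
          exact mul_le_mul (hf.bdd y) h2 (abs_nonneg _) hf.M_nonneg
        · rw [indicator_of_notMem h3]
          rw [indicator_of_notMem (by
            rw [mem_ball, dist_eq_norm, norm_sub_rev] at h3
            simpa using h3)] at h2
          have : |‖x - y‖⁻¹ - (max ‖x - y‖ δ)⁻¹| = 0 := le_antisymm h2 (abs_nonneg _)
          rw [this, mul_zero]
    _ = M * (Sg * (δ ^ 2 / 2)) := by
        rw [integral_indicator measurableSet_ball, integral_const_mul, pot_r x x hδ.le, sub_self,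
          norm_zero, PR_in le_rfl hδ.le]
        ring

lemma Nice.Vp_cont (hf : Nice M ρ f) : Continuous (Vp f) := by
  apply continuous_of_uniform_approx_of_continuous
  intro u hu
  obtain ⟨ε, hε, hu⟩ := Metric.mem_uniformity_dist.1 hu
  have hM := hf.M_nonneg
  have hS := Sg_pos
  -- choose `δ` with `M Sg δ² / 2 < ε`
  obtain ⟨δ, hδ, hδ2⟩ : ∃ δ : ℝ, 0 < δ ∧ M * (Sg * (δ ^ 2 / 2)) < ε := by
    have hc : Tendsto (fun δ : ℝ => M * (Sg * (δ ^ 2 / 2))) (𝓝[>] 0) (𝓝 (M * (Sg * ((0:ℝ) ^ 2 / 2)))) :=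
      (Continuous.tendsto (by fun_prop) _).mono_left nhdsWithin_le_nhds
    have h0 : M * (Sg * ((0:ℝ) ^ 2 / 2)) < ε := by simpa using hε
    obtain ⟨δ, h1, h2⟩ := ((hc.eventually_lt_const h0).and self_mem_nhdsWithin).exists
    exact ⟨δ, h2, h1⟩
  refine ⟨Vd δ f, hf.Vd_cont hδ, fun x => hu ?_⟩
  rw [Real.dist_eq]
  exact lt_of_le_of_lt (hf.Vp_Vd hδ x) hδ2

/-- Fubini for the average over a ball -/
lemma Nice.avg (hf : Nice M ρ f) (c : E3) {r : ℝ} (hr : 0 ≤ r) :
    ∫ x in ball c r, Vp f x = ∫ y, f y * (Sg * PR r ‖y - c‖) := by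
  unfold Vp
  have hmeas : AEStronglyMeasurable (Function.uncurry fun (x y : E3) => f y * ‖x - y‖⁻¹)
      ((volume.restrict (ball c r)).prod volume) := by
    apply Measurable.aestronglyMeasurable
    exact (hf.meas.comp measurable_snd).mul (by fun_prop)
  have hint : Integrable (Function.uncurry fun (x y : E3) => f y * ‖x - y‖⁻¹)
      ((volume.restrict (ball c r)).prod volume) := by
    rw [integrable_prod_iff hmeas]
    constructor
    · exact ae_of_all _ fun x => hf.int x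
    · have hfa : Nice M ρ (fun y => |f y|) := ⟨hf.meas.abs, fun x => by rw [abs_abs]; exact hf.bdd x,
        fun x hx => by rw [hf.supp x hx, abs_zero]⟩
      have e : (fun x : E3 => ∫ y, ‖Function.uncurry (fun (x y : E3) => f y * ‖x - y‖⁻¹) (x, y)‖) =
          Vp (fun y => |f y|) := by
        ext x
        unfold Vp
        congr 1
        ext y
        simp [Function.uncurry]
      rw [e]
      exact ((hfa.Vp_cont.locallyIntegrable.integrableOn_isCompact
        (isCompact_closedBall c r)).mono_set ball_subset_closedBall)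
  rw [integral_integral_swap hint]
  congr 1
  ext y
  rw [integral_const_mul]
  congr 1
  have := pot_r y c hr
  rw [← this]
  congr 1
  ext x
  rw [norm_sub_rev]

end Pool.Agent.Q171.Hol
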