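import Mathlib

/-! # Compact sets that are strictly star-shaped about the origin -/

set_option autoImplicit false

open MeasureTheory Set Filter Topology Metric Pointwise

namespace Pool.Agent.Q171.Hol

abbrev E3' : Type := EuclideanSpace ℝ (Fin 3)

/-- compact, strictly star-shaped about `0` -/
structure SB (K : Set E3') : Prop where
  comp : IsCompact K
  ne : K.Nonempty
  star : ∀ x ∈ K, ∀ τ : ℝ, 0 ≤ τ → τ < 1 → τ • x ∈ interior K

variable {K : Set E3'}

lemma SB.zero (h : SB K) : (0 : E3') ∈ interior K := by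
  obtain ⟨x, hx⟩ := h.ne
  simpa using h.star x hx 0 le_rfl one_pos

lemma SB.closure_int (h : SB K) : closure (interior K) = K := by
  apply Subset.antisymm
  · exact (closure_mono interior_subset).trans h.comp.isClosed.closure_subset
  · intro x hx
    have hc : Tendsto (fun τ : ℝ => τ • x) (𝓝[<] 1) (𝓝 ((1:ℝ) • x)) :=
      (Continuous.tendsto (by fun_prop) _).mono_left nhdsWithin_le_nhds
    rw [one_smul] at hc
    apply mem_closure_of_tendsto hc
    filter_upwards [Ioo_mem_nhdsLT (show (0:ℝ) < 1 by norm_num)] with τ hτ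
    exact h.star x hx τ hτ.1.le hτ.2

lemma SB.frontier_eq (h : SB K) : frontier K = K \ interior K := h.comp.isClosed.frontier_eq

lemma SB.frontier_int (h : SB K) : frontier (interior K) = frontier K := by
  rw [h.frontier_eq, isOpen_interior.frontier_eq, h.closure_int]

lemma SB.conn (h : SB K) : IsConnected (interior K) := by
  have hs : StarConvex ℝ (0 : E3') (interior K) := by
    rw [starConvex_zero_iff]
    intro x hx a ha0 ha1
    rcases ha1.eq_or_lt with h1 | h1
    · rw [h1, one_smul]; exact hx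
    · exact h.star x (interior_subset hx) a ha0 h1
  exact (hs.isPathConnected h.zero).isConnected

lemma SB.bdd (h : SB K) : Bornology.IsBounded (interior K) := h.comp.isBounded.subset interior_subset

lemma SB.ne_zero (h : SB K) {x : E3'} (hx : x ∈ frontier K) : x ≠ 0 := by
  rintro rfl
  rw [h.frontier_eq] at hx
  exact hx.2 h.zero

lemma SB.inj (h : SB K) {x y : E3'} (hx : x ∈ frontier K) (hy : y ∈ frontier K)
    (he : ‖x‖⁻¹ • x = ‖y‖⁻¹ • y) : x = y := by
  have hx0 : 0 < ‖x‖ := norm_pos_iff.2 (h.ne_zero hx)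
  have hy0 : 0 < ‖y‖ := norm_pos_iff.2 (h.ne_zero hy)
  have key : ∀ u v : E3', u ∈ frontier K → v ∈ frontier K → 0 < ‖u‖ → 0 < ‖v‖ →
      ‖u‖⁻¹ • u = ‖v‖⁻¹ • v → ¬ ‖u‖ < ‖v‖ := by
    intro u v hu hv hu0 hv0 he hlt
    have e : u = (‖u‖ / ‖v‖) • v := by
      rw [div_eq_mul_inv, mul_smul, ← he, smul_smul, mul_inv_cancel₀ hu0.ne', one_smul]
    have hv' : v ∈ K := by rw [h.frontier_eq] at hv; exact hv.1
    have h1 := h.star v hv' (‖u‖ / ‖v‖) (by positivity) (by rw [div_lt_one hv0]; exact hlt)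
    rw [← e] at h1
    rw [h.frontier_eq] at hu
    exact hu.2 h1
  have h1 := key x y hx hy hx0 hy0 he
  have h2 := key y x hy hx hy0 hx0 he.symm
  have h3 : ‖x‖ = ‖y‖ := le_antisymm (not_lt.1 h2) (not_lt.1 h1)
  rw [h3] at he
  exact smul_right_injective E3' (inv_ne_zero hy0.ne') he

lemma SB.surj (h : SB K) {θ : E3'} (hθ : ‖θ‖ = 1) : ∃ x ∈ frontier K, ‖x‖⁻¹ • x = θ := by
  set T : Set ℝ := (fun t : ℝ => t • θ) ⁻¹' K ∩ Ici 0 with hT
  have hc : Continuous (fun t : ℝ => t • θ) := by fun_prop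
  have hTc : IsClosed T := (h.comp.isClosed.preimage hc).inter isClosed_Ici
  obtain ⟨R, hR⟩ := h.comp.isBounded.subset_closedBall (0 : E3')
  have hTb : T ⊆ Icc 0 R := by
    intro t ht
    refine ⟨ht.2, ?_⟩
    have h1 : t • θ ∈ K := ht.1
    have h2 := hR h1
    rw [mem_closedBall_zero_iff, norm_smul, hθ, mul_one, Real.norm_of_nonneg ht.2] at h2
    exact h2
  have hTcomp : IsCompact T := isCompact_Icc.of_isClosed_subset hTc hTb
  have h0T : (0:ℝ) ∈ T := ⟨by
    show (0:ℝ) • θ ∈ K
    rw [zero_smul]; exact interior_subset h.zero, le_refl (0:ℝ)⟩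
  obtain ⟨t, htT, htmax⟩ := hTcomp.exists_isMaxOn ⟨0, h0T⟩ continuousOn_id
  have htmax' : ∀ s ∈ T, s ≤ t := fun s hs => htmax hs
  -- `t • θ` is not interior
  have hnot : t • θ ∉ interior K := by
    intro hin
    have hev : ∀ᶠ s in 𝓝 t, s • θ ∈ interior K := hc.continuousAt.eventually_mem (isOpen_interior.mem_nhds hin)
    have hev2 : ∀ᶠ s in 𝓝[>] t, s • θ ∈ interior K := nhdsWithin_le_nhds hev
    obtain ⟨s, hs1, hs2⟩ := (hev2.and self_mem_nhdsWithin).exists
    have hs2' : t < s := hs2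
    have h1 : s ∈ T := ⟨(interior_subset hs1 : s • θ ∈ K), (htT.2.trans hs2'.le : (0:ℝ) ≤ s)⟩
    linarith [htmax' s h1]
  have htf : t • θ ∈ frontier K := by
    rw [h.frontier_eq]
    exact ⟨htT.1, hnot⟩
  have ht0 : 0 < t := by
    rcases (show (0:ℝ) ≤ t from htT.2).eq_or_lt with h1 | h1
    · exfalso
      rw [← h1, zero_smul] at hnot
      exact hnot h.zero
    · exact h1
  refine ⟨t • θ, htf, ?_⟩
  rw [norm_smul, hθ, mul_one, Real.norm_of_nonneg ht0.le, smul_smul, inv_mul_cancel₀ ht0.ne', one_smul]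

theorem SB.homeo (h : SB K) : Nonempty (frontier K ≃ₜ sphere (0 : E3') 1) := by
  have : CompactSpace (frontier K) := isCompact_iff_compactSpace.1
    (h.comp.of_isClosed_subset isClosed_frontier (by rw [h.frontier_eq]; exact sdiff_subset))
  let F : frontier K → sphere (0 : E3') 1 := fun x => ⟨‖(x : E3')‖⁻¹ • (x : E3'), by
    rw [mem_sphere_zero_iff_norm, norm_smul, norm_inv, norm_norm,
      inv_mul_cancel₀ (norm_ne_zero_iff.2 (h.ne_zero x.2))]⟩
  have hF : Continuous F := by
    apply Continuous.subtype_mk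
    have c1 : Continuous (fun x : frontier K => ‖(x : E3')‖⁻¹) :=
      (continuous_norm.comp continuous_subtype_val).inv₀ fun x =>
        norm_ne_zero_iff.2 (h.ne_zero x.2)
    exact c1.smul continuous_subtype_val
  have hbij : Function.Bijective F := by
    constructor
    · intro x y hxy
      apply Subtype.ext
      exact h.inj x.2 y.2 (congrArg Subtype.val hxy)
    · intro θ
      obtain ⟨x, hx, hx2⟩ := h.surj (mem_sphere_zero_iff_norm.1 θ.2)
      exact ⟨⟨x, hx⟩, Subtype.ext hx2⟩
  exact ⟨Continuous.homeoOfEquivCompactToT2 (f := Equiv.ofBijective F hbij) hF⟩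

/-- the boundary is null -/
theorem SB.null (h : SB K) : volume (K \ interior K) = 0 := by
  have hfin : volume K ≠ ⊤ := h.comp.measure_lt_top.ne
  have hle : ∀ τ : ℝ, 0 < τ → τ < 1 → ENNReal.ofReal (τ ^ 3) * volume K ≤ volume (interior K) := by
    intro τ h0 h1
    have h2 : volume (τ • K) = ENNReal.ofReal (|τ ^ 3|) * volume K := by
      rw [Measure.addHaar_smul]
      simp
    rw [abs_of_pos (by positivity)] at h2
    rw [← h2]
    apply measure_mono
    rintro _ ⟨x, hx, rfl⟩
    exact h.star x hx τ h0.le h1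
  have hlim : volume K ≤ volume (interior K) := by
    have hc : Tendsto (fun τ : ℝ => ENNReal.ofReal (τ ^ 3) * volume K) (𝓝[<] 1)
        (𝓝 (ENNReal.ofReal ((1:ℝ) ^ 3) * volume K)) := by
      apply ENNReal.Tendsto.mul_const _ (Or.inr hfin)
      exact (ENNReal.tendsto_ofReal ((Continuous.tendsto (by fun_prop) _).mono_left nhdsWithin_le_nhds))
    rw [one_pow, ENNReal.ofReal_one, one_mul] at hc
    apply le_of_tendsto hc
    filter_upwards [Ioo_mem_nhdsLT (show (0:ℝ) < 1 by norm_num)] with τ hτ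
    exact hle τ hτ.1 hτ.2
  rw [measure_sdiff interior_subset isOpen_interior.measurableSet.nullMeasurableSet
    (measure_lt_top_of_subset interior_subset hfin).ne]
  exact tsub_eq_zero_of_le hlim

end Pool.Agent.Q171.Hol
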