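import Pool.Agent.Q171.Hol.Obst
import Pool.Agent.Q171.Hol.Star

/-! # Moving planes for the solution of the obstacle problem -/

set_option autoImplicit false

open MeasureTheory Set Filter Topology Metric
open scoped ENNReal RealInnerProductSpace

namespace Pool.Agent.Q171.Hol

/-- the linear reflection across `n^⊥` -/
noncomputable def lref (n : E3) (hn : ‖n‖ = 1) : E3 ≃ₗᵢ[ℝ] E3 where
  toLinearEquiv := LinearEquiv.ofInvolutive
    { toFun := fun x => x - (2 * ⟪x, n⟫) • n
      map_add' := fun x y => by rw [inner_add_left, mul_add, add_smul]; abel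
      map_smul' := fun a x => by
        rw [inner_smul_left, RingHom.id_apply, smul_sub, smul_smul]
        simp only [conj_trivial]
        congr 2
        ring }
    (fun x => by
      show (x - (2 * ⟪x, n⟫) • n) - (2 * ⟪x - (2 * ⟪x, n⟫) • n, n⟫) • n = x
      have h1 : ⟪n, n⟫ = (1:ℝ) := by rw [real_inner_self_eq_norm_sq, hn]; norm_num
      rw [inner_sub_left, inner_smul_left, h1]
      simp only [conj_trivial]
      rw [sub_sub, ← add_smul]
      ring_nf
      simp)
  norm_map' := fun x => by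
    show ‖x - (2 * ⟪x, n⟫) • n‖ = ‖x‖
    have h2 : ‖x - (2 * ⟪x, n⟫) • n‖ ^ 2 = ‖x‖ ^ 2 := by
      rw [norm_sub_sq_real, inner_smul_right, norm_smul, hn, mul_one, Real.norm_eq_abs, sq_abs]
      ring
    exact (pow_left_inj₀ (norm_nonneg _) (norm_nonneg _) two_ne_zero).1 h2

/-- the reflection across `{x | ⟪x, n⟫ = lam}` -/
noncomputable def sref (n : E3) (lam : ℝ) (x : E3) : E3 := x - (2 * (⟪x, n⟫ - lam)) • n

lemma sref_eq (n : E3) (hn : ‖n‖ = 1) (lam : ℝ) (x : E3) :
    sref n lam x = lref n hn x + (2 * lam) • n := by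
  show x - (2 * (⟪x, n⟫ - lam)) • n = (x - (2 * ⟪x, n⟫) • n) + (2 * lam) • n
  rw [mul_sub, sub_smul]
  abel

lemma sref_inner (n : E3) (hn : ‖n‖ = 1) (lam : ℝ) (x : E3) :
    ⟪sref n lam x, n⟫ = 2 * lam - ⟪x, n⟫ := by
  have h1 : ⟪n, n⟫ = (1:ℝ) := by rw [real_inner_self_eq_norm_sq, hn]; norm_num
  unfold sref
  rw [inner_sub_left, inner_smul_left, h1]
  simp only [conj_trivial]
  ring

lemma sref_sref (n : E3) (hn : ‖n‖ = 1) (lam : ℝ) (x : E3) : sref n lam (sref n lam x) = x := by
  have h := sref_inner n hn lam x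
  conv_lhs => unfold sref
  rw [show (⟪x - (2 * (⟪x, n⟫ - lam)) • n, n⟫ : ℝ) = 2 * lam - ⟪x, n⟫ from h, sub_sub, ← add_smul]
  ring_nf
  simp

lemma sref_norm_sub (n : E3) (hn : ‖n‖ = 1) (lam : ℝ) (x y : E3) :
    ‖sref n lam x - sref n lam y‖ = ‖x - y‖ := by
  rw [sref_eq n hn, sref_eq n hn, add_sub_add_right_eq_sub, ← map_sub, LinearIsometryEquiv.norm_map]

lemma sref_mp (n : E3) (hn : ‖n‖ = 1) (lam : ℝ) : MeasurePreserving (sref n lam) volume volume := by
  have h1 : MeasurePreserving (lref n hn) volume volume := (lref n hn).measurePreserving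
  have h2 : MeasurePreserving (fun x : E3 => x + (2 * lam) • n) volume volume :=
    measurePreserving_add_right volume _
  have h3 := h2.comp h1
  have e : sref n lam = (fun x : E3 => x + (2 * lam) • n) ∘ (lref n hn) := by
    ext x i
    rw [sref_eq n hn]
    rfl
  rw [e]
  exact h3

lemma sref_cont (n : E3) (lam : ℝ) : Continuous (sref n lam) := by unfold sref; fun_prop

lemma sref_fix (n : E3) (lam : ℝ) {x : E3} (h : ⟪x, n⟫ = lam) : sref n lam x = x := by
  unfold sref; rw [h]; simp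

variable {ρ M : ℝ} {U : Set E3}

lemma Nice.comp_sref {f : E3 → ℝ} (hf : Nice M ρ f) (n : E3) (hn : ‖n‖ = 1) {lam : ℝ} (hl : 0 ≤ lam) :
    Nice M (ρ + 2 * lam) (fun x => f (sref n lam x)) := by
  refine ⟨hf.meas.comp (sref_cont n lam).measurable, fun x => hf.bdd _, fun x hx => hf.supp _ ?_⟩
  have h1 : ‖lref n hn x‖ = ‖x‖ := LinearIsometryEquiv.norm_map _ _
  have h2 : ‖(2 * lam) • n‖ = 2 * lam := by
    rw [norm_smul, hn, mul_one, Real.norm_of_nonneg (by positivity)]
  have h3 : ‖lref n hn x‖ ≤ ‖sref n lam x‖ + ‖(2 * lam) • n‖ := by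
    rw [sref_eq n hn]
    have := norm_sub_le (lref n hn x + (2 * lam) • n) ((2 * lam) • n)
    rwa [add_sub_cancel_right] at this
  linarith

lemma Vp_sref (f : E3 → ℝ) (n : E3) (hn : ‖n‖ = 1) (lam : ℝ) (x : E3) :
    Vp (fun y => f (sref n lam y)) x = Vp f (sref n lam x) := by
  unfold Vp
  have hmp := sref_mp n hn lam
  have he : MeasurableEmbedding (sref n lam) := by
    have : (sref n lam) = ((lref n hn).toHomeomorph.trans (Homeomorph.addRight ((2 * lam) • n))) := by
      ext x i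
      rw [sref_eq n hn]
      rfl
    rw [this]
    exact Homeomorph.measurableEmbedding _
  rw [← hmp.integral_comp he]
  congr 1
  ext y
  show f (sref n lam (sref n lam y)) * ‖x - sref n lam y‖⁻¹ = f y * ‖sref n lam x - y‖⁻¹
  have h := sref_norm_sub n hn lam x (sref n lam y)
  rw [sref_sref n hn] at h
  rw [sref_sref n hn, h]

/-- moving planes -/
theorem moving {R c : ℝ} (hR : 0 ≤ R) (hb : U ⊆ ball 0 R) {g : E3 → ℝ} (hg : Adm U g)
    (hk : ∀ᵐ x, x ∈ U → Vp g x < c → g x = 1) (hc : ∀ x, Vp g x ≤ c)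
    {n : E3} (hn : ‖n‖ = 1) {lam : ℝ} (hl : 0 ≤ lam)
    (hrefl : ∀ x ∈ U, lam < ⟪x, n⟫ → sref n lam x ∈ U) {x : E3} (hx : lam < ⟪x, n⟫) :
    Vp g x ≤ Vp g (sref n lam x) := by
  have hgn := (hg.nice hb).mono le_rfl (show R ≤ R + 2 * lam by linarith)
  have hgs := (hg.nice hb).comp_sref n hn hl
  have hfn := hgn.sub hgs
  have hV : ∀ x, Vp (fun y => g y - g (sref n lam y)) x = Vp g x - Vp g (sref n lam x) := by
    intro x
    rw [Vp_sub hgn hgs, Vp_sref g n hn lam x]
  have hD : IsOpen {x : E3 | lam < ⟪x, n⟫} := isOpen_lt continuous_const (by fun_prop)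
  have key := hfn.mp (by linarith) (a := 0) le_rfl hD (by
    intro x hx
    have h1 : lam = ⟪x, n⟫ := frontier_lt_subset_eq (f := fun _ : E3 => lam)
      (g := fun x : E3 => ⟪x, n⟫) continuous_const (by fun_prop) hx
    rw [hV, sref_fix n lam h1.symm]
    simp) (by
    have hk2 : ∀ᵐ y, sref n lam y ∈ U → Vp g (sref n lam y) < c → g (sref n lam y) = 1 :=
      (sref_mp n hn lam).quasiMeasurePreserving.ae hk
    filter_upwards [hk2] with y hy hyD hpos
    rw [hV, add_zero] at hpos
    have h1 : Vp g (sref n lam y) < c := by linarith [hc y]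
    by_cases hyU : y ∈ U
    · have h2 := hy (hrefl y hyU hyD) h1
      have h3 := hg.le_one y
      rw [h2]; linarith
    · rw [hg.supp y hyU]
      have := hg.nonneg (sref n lam y)
      linarith) x hx
  rw [hV, add_zero] at key
  linarith

end Pool.Agent.Q171.Hol
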