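import Pool.Agent.Q171.Hol.Max

/-! # Weak sequential compactness -/

set_option autoImplicit false

open MeasureTheory Set Filter Topology Metric
open scoped ENNReal

namespace Pool.Agent.Q171.Hol

/-- densities between `0` and the indicator of `U` -/
structure Adm (U : Set E3) (g : E3 → ℝ) : Prop where
  meas : Measurable g
  nonneg : ∀ x, 0 ≤ g x
  le_one : ∀ x, g x ≤ 1
  supp : ∀ x, x ∉ U → g x = 0

variable {U : Set E3} {ρ : ℝ}

lemma Adm.nice {g : E3 → ℝ} (hg : Adm U g) (hb : U ⊆ ball 0 ρ) : Nice 1 ρ g :=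
  ⟨hg.meas, fun x => by rw [abs_of_nonneg (hg.nonneg x)]; exact hg.le_one x, fun x hx => by
    apply hg.supp
    intro h
    have := hb h
    simp only [mem_ball, dist_zero_right] at this
    linarith⟩

lemma Adm.memLp [IsFiniteMeasure (volume.restrict U)] {g : E3 → ℝ} (hg : Adm U g) :
    MemLp g 2 (volume.restrict U) :=
  MemLp.of_bound hg.meas.aestronglyMeasurable 1 (ae_of_all _ fun x => by
    rw [Real.norm_of_nonneg (hg.nonneg x)]; exact hg.le_one x)

theorem weak_seq (hU : MeasurableSet U) [IsFiniteMeasure (volume.restrict U)]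
    (g : ℕ → E3 → ℝ) (hg : ∀ n, Adm U (g n)) :
    ∃ g' : E3 → ℝ, Adm U g' ∧ ∃ φ : ℕ → ℕ, StrictMono φ ∧ ∀ k : E3 → ℝ,
      MemLp k 2 (volume.restrict U) →
      Tendsto (fun n => ∫ y in U, g (φ n) y * k y) atTop (𝓝 (∫ y in U, g' y * k y)) := by
  set μ := volume.restrict U with hμ
  let v : ℕ → Lp ℝ 2 μ := fun n => (hg n).memLp.toLp (g n)
  let R : ℝ := (μ univ).toReal ^ (1 / (2:ℝ)) + 1
  have hv : ∀ n, ‖v n‖ ≤ R := by
    intro n
    have h1 : ‖v n‖ ≤ μ.real univ ^ (ENNReal.toReal 2)⁻¹ * 1 := by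
      apply Lp.norm_le_of_ae_bound zero_le_one
      filter_upwards [(hg n).memLp.coeFn_toLp] with x hx
      show ‖(v n) x‖ ≤ 1
      rw [hx, Real.norm_of_nonneg ((hg n).nonneg x)]
      exact (hg n).le_one x
    refine h1.trans ?_
    rw [mul_one]
    show (μ univ).toReal ^ (ENNReal.toReal 2)⁻¹ ≤ R
    simp only [R, ENNReal.toReal_ofNat, one_div]
    linarith
  have : Fact ((2:ℝ≥0∞) ≠ ⊤) := ⟨by norm_num⟩
  have : SecondCountableTopology (Lp ℝ 2 μ) := Lp.SecondCountableTopology
  have hcomp := WeakDual.isSeqCompact_closedBall ℝ (E := Lp ℝ 2 μ) 0 R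
  let w : ℕ → WeakDual ℝ (Lp ℝ 2 μ) := fun n =>
    StrongDual.toWeakDual (InnerProductSpace.toDual ℝ (Lp ℝ 2 μ) (v n))
  obtain ⟨ψ, -, φ, hφ, hlim⟩ := hcomp (x := w) (fun n => by
    show (WeakDual.toStrongDual (w n)) ∈ closedBall 0 R
    rw [mem_closedBall_zero_iff]
    show ‖InnerProductSpace.toDual ℝ (Lp ℝ 2 μ) (v n)‖ ≤ R
    rw [LinearIsometryEquiv.norm_map]
    exact hv n)
  set z : Lp ℝ 2 μ := (InnerProductSpace.toDual ℝ (Lp ℝ 2 μ)).symm (WeakDual.toStrongDual ψ) with hz
  have hlim2 : ∀ y : Lp ℝ 2 μ, Tendsto (fun n => inner ℝ (v (φ n)) y) atTop (𝓝 (inner ℝ z y)) := by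
    intro y
    have h1 := (WeakDual.eval_continuous (𝕜 := ℝ) y).tendsto ψ
    have h2 := h1.comp hlim
    have e1 : ψ y = inner ℝ z y := by
      rw [hz, InnerProductSpace.toDual_symm_apply]
      rfl
    rw [e1] at h2
    exact h2
  -- the integral form
  have hlim3 : ∀ k : E3 → ℝ, MemLp k 2 μ →
      Tendsto (fun n => ∫ y, g (φ n) y * k y ∂μ) atTop (𝓝 (∫ y, z y * k y ∂μ)) := by
    intro k hk
    have h1 := hlim2 (hk.toLp k)
    have e1 : ∀ n, inner ℝ (v (φ n)) (hk.toLp k) = ∫ y, g (φ n) y * k y ∂μ := by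
      intro n
      rw [L2.inner_def]
      apply integral_congr_ae
      filter_upwards [(hg (φ n)).memLp.coeFn_toLp, hk.coeFn_toLp] with y h1 h2
      show inner ℝ ((v (φ n)) y) ((hk.toLp k) y) = _
      rw [h1, h2]
      simp [mul_comm]
    have e2 : inner ℝ z (hk.toLp k) = ∫ y, z y * k y ∂μ := by
      rw [L2.inner_def]
      apply integral_congr_ae
      filter_upwards [hk.coeFn_toLp] with y h2
      rw [h2]
      simp [mul_comm]
    rw [e2] at h1
    exact h1.congr e1
  have hzint : Integrable z μ := (Lp.memLp z).integrable (by norm_num)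
  have hset : ∀ s, MeasurableSet s →
      Tendsto (fun n => ∫ y in s, g (φ n) y ∂μ) atTop (𝓝 (∫ y in s, z y ∂μ)) := by
    intro s hs
    have h1 := hlim3 (s.indicator 1) (memLp_indicator_const 2 hs 1 (Or.inr (measure_ne_top _ _)))
    have e : ∀ f : E3 → ℝ, ∫ y, f y * s.indicator 1 y ∂μ = ∫ y in s, f y ∂μ := by
      intro f
      rw [← integral_indicator hs]
      congr 1
      ext y
      by_cases h : y ∈ s <;> simp [h]
    simp only [e] at h1
    exact h1
  have hz0 : 0 ≤ᵐ[μ] z := by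
    apply ae_nonneg_of_forall_setIntegral_nonneg hzint
    intro s hs _
    exact ge_of_tendsto' (hset s hs) fun n => integral_nonneg fun y => (hg _).nonneg y
  have hz1 : 0 ≤ᵐ[μ] fun y => 1 - z y := by
    apply ae_nonneg_of_forall_setIntegral_nonneg ((integrable_const 1).sub hzint)
    intro s hs _
    have h1 : ∫ y in s, z y ∂μ ≤ ∫ y in s, (1:ℝ) ∂μ := by
      apply le_of_tendsto' (hset s hs)
      intro n
      apply integral_mono
      · exact ((hg _).memLp.integrable (by norm_num)).integrableOn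
      · exact (integrable_const (1:ℝ)).integrableOn
      · exact fun y => (hg _).le_one y
    have e1 : ∫ y in s, (1 - z y) ∂μ = (∫ y in s, (1:ℝ) ∂μ) - ∫ y in s, z y ∂μ :=
      integral_sub (integrable_const (1:ℝ)).integrableOn hzint.integrableOn
    have e2 : ∫ y in s, ((fun _ : E3 => (1:ℝ)) - ⇑z) y ∂μ = ∫ y in s, (1 - z y) ∂μ := rfl
    rw [e2, e1]
    linarith
  have hzm : Measurable z := (Lp.stronglyMeasurable z).measurable
  refine ⟨U.indicator (fun y => max 0 (min 1 (z y))), ⟨?_, ?_, ?_, ?_⟩, φ, hφ, ?_⟩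
  · exact (by fun_prop : Measurable fun y => max 0 (min 1 (z y))).indicator hU
  · intro x
    apply indicator_nonneg
    intro y _
    exact le_max_left _ _
  · intro x
    by_cases hx : x ∈ U
    · rw [indicator_of_mem hx]; exact max_le zero_le_one (min_le_left _ _)
    · rw [indicator_of_notMem hx]; exact zero_le_one
  · intro x hx
    exact indicator_of_notMem hx _
  · intro k hk
    have h1 := hlim3 k hk
    have e : ∫ y, z y * k y ∂μ = ∫ y in U, (U.indicator (fun y => max 0 (min 1 (z y)))) y * k y := by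
      apply integral_congr_ae
      filter_upwards [hz0, hz1, ae_restrict_mem hU] with y h0 h1 h2
      have h3 : 0 ≤ z y := h0
      have h4 : 0 ≤ 1 - z y := h1
      rw [indicator_of_mem h2, min_eq_right (by linarith), max_eq_right h3]
    rw [e] at h1
    exact h1

end Pool.Agent.Q171.Hol
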